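import Mathlib
import Pool.Agent.Helper1.BalanceDefs

/-!
Reinsertion of one element in a random linear extension (problem MP_c890a7_co).
-/

set_option autoImplicit false

namespace Pool.Agent.Helper18.Interval

open Finset Pool.Agent.Helper1.Balance

variable {n : ℕ}

/-- move position `s` to position `t`, keeping the order of all other positions -/
def mv (s t x : ℕ) : ℕ :=
  if x = s then t else if s < x ∧ x ≤ t then x - 1 else if t ≤ x ∧ x < s then x + 1 else x

theorem mv_bd {s t x n : ℕ} (hs : s < n) (ht : t < n) (hx : x < n) : mv s t x < n := by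
  unfold mv; split_ifs <;> omega

theorem mv_mv (s t x : ℕ) : mv t s (mv s t x) = x := by
  unfold mv; split_ifs <;> omega

/-- the permutation of positions which moves `s` to `t` -/
def mvP (s t : Fin n) : Equiv.Perm (Fin n) where
  toFun x := ⟨mv s t x, mv_bd s.2 t.2 x.2⟩
  invFun x := ⟨mv t s x, mv_bd t.2 s.2 x.2⟩
  left_inv x := by ext; exact mv_mv _ _ _
  right_inv x := by ext; exact mv_mv _ _ _

theorem mvP_self (s t : Fin n) : mvP s t s = t := by
  ext; simp [mvP, mv]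

theorem mvP_mvP (s t x : Fin n) : mvP t s (mvP s t x) = x := by
  ext; exact mv_mv _ _ _

theorem mvP_le {s t x y : Fin n} (hx : x ≠ s) (hy : y ≠ s) (h : x ≤ y) :
    mvP s t x ≤ mvP s t y := by
  rw [Fin.le_def] at h ⊢
  rw [Ne, Fin.ext_iff] at hx hy
  simp only [mvP, Equiv.coe_fn_mk]
  unfold mv; split_ifs <;> omega

theorem mvP_lt_of_lt {s t x : Fin n} (hx : x ≠ s) (h : x < t) : mvP s t x < t := by
  rw [Fin.lt_def] at h ⊢
  rw [Ne, Fin.ext_iff] at hx
  simp only [mvP, Equiv.coe_fn_mk]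
  unfold mv; split_ifs <;> omega

theorem lt_mvP_of_lt {s t x : Fin n} (hx : x ≠ s) (h : t < x) : t < mvP s t x := by
  rw [Fin.lt_def] at h ⊢
  rw [Ne, Fin.ext_iff] at hx
  simp only [mvP, Equiv.coe_fn_mk]
  unfold mv; split_ifs <;> omega

theorem le_of_mvP_lt {s t x : Fin n} (h : mvP s t x < t) : x ≤ t := by
  rw [Fin.lt_def] at h
  rw [Fin.le_def]
  simp only [mvP, Equiv.coe_fn_mk] at h
  revert h
  unfold mv; split_ifs <;> intro h <;> omega

theorem le_of_lt_mvP {s t x : Fin n} (h : t < mvP s t x) : t ≤ x := by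
  rw [Fin.lt_def] at h
  rw [Fin.le_def]
  simp only [mvP, Equiv.coe_fn_mk] at h
  revert h
  unfold mv; split_ifs <;> intro h <;> omega

theorem mvP_eq_of_lt {s t x : Fin n} (h1 : x < s) (h2 : x < t) : mvP s t x = x := by
  rw [Fin.lt_def] at h1 h2
  ext
  simp only [mvP, Equiv.coe_fn_mk]
  unfold mv; split_ifs <;> omega

theorem mvP_eq_of_gt {s t x : Fin n} (h1 : s < x) (h2 : t < x) : mvP s t x = x := by
  rw [Fin.lt_def] at h1 h2
  ext
  simp only [mvP, Equiv.coe_fn_mk]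
  unfold mv; split_ifs <;> omega

/-- strict relation -/
def lt (r : Fin n → Fin n → Prop) (a b : Fin n) : Prop := r a b ∧ a ≠ b

open Classical in
/-- the set of linear extensions -/
noncomputable def LX (r : Fin n → Fin n → Prop) : Finset (Equiv.Perm (Fin n)) :=
  univ.filter (fun σ => ∀ a b, r a b → σ a ≤ σ b)

theorem mem_LX {r : Fin n → Fin n → Prop} {σ : Equiv.Perm (Fin n)} :
    σ ∈ LX r ↔ ∀ a b, r a b → σ a ≤ σ b := by
  simp [LX]

theorem LX_lt {r : Fin n → Fin n → Prop} {σ : Equiv.Perm (Fin n)} (h : σ ∈ LX r)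
    {a b : Fin n} (hab : lt r a b) : σ a < σ b := by
  rw [mem_LX] at h
  exact lt_of_le_of_ne (h a b hab.1) (fun h' => hab.2 (σ.injective h'))

open Classical in
/-- allowed positions for `a` -/
noncomputable def J (r : Fin n → Fin n → Prop) (a : Fin n) (σ : Equiv.Perm (Fin n)) :
    Finset (Fin n) :=
  univ.filter (fun t => (∀ d, lt r d a → σ d < t) ∧ (∀ u, lt r a u → t < σ u))

theorem mem_J {r : Fin n → Fin n → Prop} {a : Fin n} {σ : Equiv.Perm (Fin n)} {t : Fin n} :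
    t ∈ J r a σ ↔ (∀ d, lt r d a → σ d < t) ∧ (∀ u, lt r a u → t < σ u) := by
  simp [J]

theorem self_mem_J {r : Fin n → Fin n → Prop} {a : Fin n} {σ : Equiv.Perm (Fin n)}
    (h : σ ∈ LX r) : σ a ∈ J r a σ :=
  mem_J.2 ⟨fun _ hd => LX_lt h hd, fun _ hu => LX_lt h hu⟩

/-- the linear extension obtained by moving `a` to position `t` -/
def move (a t : Fin n) (σ : Equiv.Perm (Fin n)) : Equiv.Perm (Fin n) :=
  σ.trans (mvP (σ a) t)

theorem move_apply (a t : Fin n) (σ : Equiv.Perm (Fin n)) (x : Fin n) :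
    move a t σ x = mvP (σ a) t (σ x) := rfl

theorem move_self (a t : Fin n) (σ : Equiv.Perm (Fin n)) : move a t σ a = t := by
  rw [move_apply, mvP_self]

theorem move_move (a t : Fin n) (σ : Equiv.Perm (Fin n)) :
    move a (σ a) (move a t σ) = σ := by
  ext x
  rw [move_apply, move_self, move_apply, mvP_mvP]

theorem move_mem {r : Fin n → Fin n → Prop} {a t : Fin n} {σ : Equiv.Perm (Fin n)}
    (h : σ ∈ LX r) (ht : t ∈ J r a σ) : move a t σ ∈ LX r := by
  rw [mem_J] at ht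
  rw [mem_LX]
  intro x y hxy
  by_cases hxa : x = a
  · subst hxa
    by_cases hya : y = x
    · subst hya; exact le_rfl
    · rw [move_self, move_apply]
      exact (lt_mvP_of_lt (fun h' => hya (σ.injective h'))
        (ht.2 y ⟨hxy, fun h' => hya h'.symm⟩)).le
  · by_cases hya : y = a
    · subst hya
      rw [move_self, move_apply]
      exact (mvP_lt_of_lt (fun h' => hxa (σ.injective h')) (ht.1 x ⟨hxy, hxa⟩)).le
    · rw [move_apply, move_apply]
      exact mvP_le (fun h' => hxa (σ.injective h')) (fun h' => hya (σ.injective h'))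
        ((mem_LX.1 h) x y hxy)

theorem J_move {r : Fin n → Fin n → Prop} {a t : Fin n} {σ : Equiv.Perm (Fin n)}
    (h : σ ∈ LX r) (ht : t ∈ J r a σ) : J r a (move a t σ) = J r a σ := by
  rw [mem_J] at ht
  have h1 : ∀ d, lt r d a → move a t σ d = σ d := fun d hd =>
    mvP_eq_of_lt (LX_lt h hd) (ht.1 d hd)
  have h2 : ∀ u, lt r a u → move a t σ u = σ u := fun u hu =>
    mvP_eq_of_gt (LX_lt h hu) (ht.2 u hu)
  ext x
  rw [mem_J, mem_J]
  constructor
  · rintro ⟨h3, h4⟩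
    exact ⟨fun d hd => by rw [← h1 d hd]; exact h3 d hd,
      fun u hu => by rw [← h2 u hu]; exact h4 u hu⟩
  · rintro ⟨h3, h4⟩
    exact ⟨fun d hd => by rw [h1 d hd]; exact h3 d hd,
      fun u hu => by rw [h2 u hu]; exact h4 u hu⟩

/-- **Reinsertion lemma.** -/
theorem reinsert (r : Fin n → Fin n → Prop) (a : Fin n) (g : Equiv.Perm (Fin n) → ℝ) :
    ∑ σ ∈ LX r, g σ =
      ∑ σ ∈ LX r, (∑ t ∈ J r a σ, g (move a t σ)) / ((J r a σ).card : ℝ) := by
  have h0 : ∀ σ ∈ LX r, ((J r a σ).card : ℝ) ≠ 0 := by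
    intro σ hσ
    have : 0 < (J r a σ).card := card_pos.2 ⟨_, self_mem_J hσ⟩
    exact_mod_cast this.ne'
  have h1 : ∑ σ ∈ LX r, g σ =
      ∑ σ ∈ LX r, ∑ t ∈ J r a σ, g σ / ((J r a σ).card : ℝ) := by
    refine sum_congr rfl fun σ hσ => ?_
    rw [sum_const, nsmul_eq_mul]
    field_simp [h0 σ hσ]
  have h2 : ∑ σ ∈ LX r, (∑ t ∈ J r a σ, g (move a t σ)) / ((J r a σ).card : ℝ) =
      ∑ σ ∈ LX r, ∑ t ∈ J r a σ, g (move a t σ) / ((J r a σ).card : ℝ) :=
    sum_congr rfl fun σ _ => sum_div _ _ _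
  rw [h1, h2, sum_sigma', sum_sigma']
  refine sum_bij' (fun p _ => (⟨move a p.2 p.1, p.1 a⟩ : (_ : Equiv.Perm (Fin n)) × Fin n))
    (fun p _ => (⟨move a p.2 p.1, p.1 a⟩ : (_ : Equiv.Perm (Fin n)) × Fin n)) ?_ ?_ ?_ ?_ ?_
  · rintro ⟨σ, t⟩ h
    rw [mem_sigma] at h ⊢
    refine ⟨move_mem h.1 h.2, ?_⟩
    show σ a ∈ J r a (move a t σ)
    rw [J_move h.1 h.2]
    exact self_mem_J h.1
  · rintro ⟨σ, t⟩ h
    rw [mem_sigma] at h ⊢
    refine ⟨move_mem h.1 h.2, ?_⟩
    show σ a ∈ J r a (move a t σ)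
    rw [J_move h.1 h.2]
    exact self_mem_J h.1
  · rintro ⟨σ, t⟩ _
    simp only [move_move, move_self]
  · rintro ⟨σ, t⟩ _
    simp only [move_move, move_self]
  · rintro ⟨σ, t⟩ h
    rw [mem_sigma] at h
    show g σ / _ = g (move a (σ a) (move a t σ)) / _
    rw [move_move, J_move h.1 h.2]

/-- counting version: if moving `a` to `t` makes the event true only for `t` in `S σ` -/
theorem reinsert_le (r : Fin n → Fin n → Prop) (a : Fin n) (p : Equiv.Perm (Fin n) → Prop)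
    [DecidablePred p]
    (S : Equiv.Perm (Fin n) → Finset (Fin n))
    (h : ∀ σ ∈ LX r, ∀ t ∈ J r a σ, p (move a t σ) → t ∈ S σ) :
    (((LX r).filter p).card : ℝ) ≤ ∑ σ ∈ LX r, ((S σ).card : ℝ) / ((J r a σ).card : ℝ) := by
  have h1 : (((LX r).filter p).card : ℝ) = ∑ σ ∈ LX r, (if p σ then (1 : ℝ) else 0) := by
    rw [sum_boole]
  rw [h1, reinsert r a (fun σ => if p σ then (1 : ℝ) else 0)]
  refine sum_le_sum fun σ hσ => ?_
  refine div_le_div_of_nonneg_right ?_ (Nat.cast_nonneg _)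
  rw [sum_boole]
  exact_mod_cast card_le_card (fun t ht => by
    rw [mem_filter] at ht
    exact h σ hσ t ht.1 ht.2)

theorem le_reinsert (r : Fin n → Fin n → Prop) (a : Fin n) (p : Equiv.Perm (Fin n) → Prop)
    [DecidablePred p]
    (S : Equiv.Perm (Fin n) → Finset (Fin n))
    (h : ∀ σ ∈ LX r, ∀ t ∈ S σ, t ∈ J r a σ ∧ p (move a t σ)) :
    ∑ σ ∈ LX r, ((S σ).card : ℝ) / ((J r a σ).card : ℝ) ≤ (((LX r).filter p).card : ℝ) := by
  have h1 : (((LX r).filter p).card : ℝ) = ∑ σ ∈ LX r, (if p σ then (1 : ℝ) else 0) := by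
    rw [sum_boole]
  rw [h1, reinsert r a (fun σ => if p σ then (1 : ℝ) else 0)]
  refine sum_le_sum fun σ hσ => ?_
  refine div_le_div_of_nonneg_right ?_ (Nat.cast_nonneg _)
  rw [sum_boole]
  exact_mod_cast card_le_card (fun t ht => by
    rw [mem_filter]
    exact h σ hσ t ht)

/-- `a` moved to `t` is before `y` -/
theorem move_lt_iff {a t y : Fin n} {σ : Equiv.Perm (Fin n)} (hy : y ≠ a) :
    (move a t σ a < move a t σ y → t ≤ σ y) ∧ (t < σ y → move a t σ a < move a t σ y) := by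
  rw [move_self, move_apply]
  exact ⟨le_of_lt_mvP, fun h => lt_mvP_of_lt (fun h' => hy (σ.injective h')) h⟩

theorem move_gt_iff {a t y : Fin n} {σ : Equiv.Perm (Fin n)} (hy : y ≠ a) :
    (move a t σ y < move a t σ a → σ y ≤ t) ∧ (σ y < t → move a t σ y < move a t σ a) := by
  rw [move_self, move_apply]
  exact ⟨le_of_mvP_lt, fun h => mvP_lt_of_lt (fun h' => hy (σ.injective h')) h⟩

end Pool.Agent.Helper18.Interval
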