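import Mathlib
import Pool.Agent.Helper18.Interval.Basic

/-!
Pairs in an antichain with nested down-sets and nested up-sets (problem MP_c890a7_co).
-/

set_option autoImplicit false

namespace Pool.Agent.Helper18.Interval

open Finset Pool.Agent.Helper1.Balance

variable {n : ℕ}

open Classical in
/-- allowed positions of `a` up to the last element below `A` -/
noncomputable def XF (r : Fin n → Fin n → Prop) (A : Finset (Fin n)) (a : Fin n)
    (σ : Equiv.Perm (Fin n)) : Finset (Fin n) :=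
  univ.filter (fun t => (∀ d, lt r d a → σ d < t) ∧ ∃ b ∈ A, ∃ z, lt r z b ∧ t ≤ σ z)

open Classical in
/-- allowed positions of `a` after the last element below `A` -/
noncomputable def YF (r : Fin n → Fin n → Prop) (A : Finset (Fin n)) (a : Fin n)
    (σ : Equiv.Perm (Fin n)) : Finset (Fin n) :=
  univ.filter (fun t => (∀ b ∈ A, ∀ z, lt r z b → σ z < t) ∧ ∀ u, lt r a u → t < σ u)

theorem mem_XF {r : Fin n → Fin n → Prop} {A : Finset (Fin n)} {a : Fin n}
    {σ : Equiv.Perm (Fin n)} {t : Fin n} :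
    t ∈ XF r A a σ ↔ (∀ d, lt r d a → σ d < t) ∧ ∃ b ∈ A, ∃ z, lt r z b ∧ t ≤ σ z := by
  simp [XF]

theorem mem_YF {r : Fin n → Fin n → Prop} {A : Finset (Fin n)} {a : Fin n}
    {σ : Equiv.Perm (Fin n)} {t : Fin n} :
    t ∈ YF r A a σ ↔ (∀ b ∈ A, ∀ z, lt r z b → σ z < t) ∧ ∀ u, lt r a u → t < σ u := by
  simp [YF]

/-- an antichain all of whose lower elements are below all of its upper elements -/
structure Good (r : Fin n → Fin n → Prop) (A : Finset (Fin n)) : Prop where
  anti : IsAnti r A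
  sep : ∀ a ∈ A, ∀ b ∈ A, ∀ d u, lt r d a → lt r b u → lt r d u
  down : ∀ a ∈ A, ∀ b ∈ A, (∀ d, lt r d a → lt r d b) ∨ (∀ d, lt r d b → lt r d a)
  up : ∀ a ∈ A, ∀ b ∈ A, (∀ u, lt r a u → lt r b u) ∨ (∀ u, lt r b u → lt r a u)

variable {r : Fin n → Fin n → Prop} {A : Finset (Fin n)}

theorem card_J (hA : Good r A) {a : Fin n} (ha : a ∈ A) {σ : Equiv.Perm (Fin n)}
    (h : σ ∈ LX r) : (J r a σ).card = (XF r A a σ).card + (YF r A a σ).card := by
  rw [← card_union_of_disjoint]
  · congr 1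
    ext t
    rw [mem_union, mem_J, mem_XF, mem_YF]
    constructor
    · rintro ⟨h1, h2⟩
      by_cases h3 : ∃ b ∈ A, ∃ z, lt r z b ∧ t ≤ σ z
      · exact Or.inl ⟨h1, h3⟩
      · refine Or.inr ⟨fun b hb z hz => ?_, h2⟩
        by_contra h4
        exact h3 ⟨b, hb, z, hz, not_lt.1 h4⟩
    · rintro (⟨h1, b, hb, z, hz, h3⟩ | ⟨h1, h2⟩)
      · refine ⟨h1, fun u hu => lt_of_le_of_lt h3 (LX_lt h (hA.sep b hb a ha z u hz hu))⟩
      · exact ⟨fun d hd => h1 a ha d hd, h2⟩
  · rw [disjoint_left]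
    intro t h1 h2
    rw [mem_XF] at h1
    rw [mem_YF] at h2
    obtain ⟨_, b, hb, z, hz, h3⟩ := h1
    exact absurd (h2.1 b hb z hz) (not_lt.2 h3)

theorem XF_anti {a b : Fin n} (h : ∀ d, lt r d a → lt r d b) (σ : Equiv.Perm (Fin n)) :
    XF r A b σ ⊆ XF r A a σ := by
  intro t ht
  rw [mem_XF] at ht ⊢
  exact ⟨fun d hd => ht.1 d (h d hd), ht.2⟩

theorem YF_anti {a b : Fin n} (h : ∀ u, lt r a u → lt r b u) (σ : Equiv.Perm (Fin n)) :
    YF r A b σ ⊆ YF r A a σ := by
  intro t ht
  rw [mem_YF] at ht ⊢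
  exact ⟨ht.1, fun d hd => ht.2 d (h d hd)⟩

/-- the bad event: exchanging `a` and `b` may destroy the linear extension -/
def Bad (r : Fin n → Fin n → Prop) (a b : Fin n) (σ : Equiv.Perm (Fin n)) : Prop :=
  ((∃ d, lt r d b ∧ σ a < σ d) ∨ (∃ u, lt r b u ∧ σ u < σ a)) ∨
  ((∃ d, lt r d a ∧ σ b < σ d) ∨ (∃ u, lt r a u ∧ σ u < σ b))

theorem swap_mem {a b : Fin n} (hab : ¬ r a b) (hba : ¬ r b a) {σ : Equiv.Perm (Fin n)}
    (h : σ ∈ LX r) (hbad : ¬ Bad r a b σ) : (Equiv.swap a b).trans σ ∈ LX r := by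
  unfold Bad at hbad
  push Not at hbad
  obtain ⟨⟨h1, h2⟩, h3, h4⟩ := hbad
  rw [mem_LX]
  intro x y hxy
  have hs := mem_LX.1 h
  simp only [Equiv.trans_apply]
  by_cases hxa : x = a
  · subst hxa
    rw [Equiv.swap_apply_left]
    by_cases hyx : y = x
    · subst hyx; rw [Equiv.swap_apply_left]
    · by_cases hyb : y = b
      · subst hyb; exact absurd hxy hab
      · rw [Equiv.swap_apply_of_ne_of_ne hyx hyb]
        exact h4 y ⟨hxy, Ne.symm hyx⟩
  · by_cases hxb : x = b
    · subst hxb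
      rw [Equiv.swap_apply_right]
      by_cases hyx : y = x
      · subst hyx; rw [Equiv.swap_apply_right]
      · by_cases hya : y = a
        · subst hya; exact absurd hxy hba
        · rw [Equiv.swap_apply_of_ne_of_ne hya hyx]
          exact h2 y ⟨hxy, Ne.symm hyx⟩
    · rw [Equiv.swap_apply_of_ne_of_ne hxa hxb]
      by_cases hya : y = a
      · subst hya
        rw [Equiv.swap_apply_left]
        exact h3 x ⟨hxy, hxa⟩
      · by_cases hyb : y = b
        · subst hyb
          rw [Equiv.swap_apply_right]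
          exact h1 x ⟨hxy, hxb⟩
        · rw [Equiv.swap_apply_of_ne_of_ne hya hyb]
          exact hs x y hxy

open Classical in
theorem half_le {a b : Fin n} (hab : ¬ r a b) (hba : ¬ r b a) (hne : a ≠ b) :
    ((LX r).card : ℝ) ≤ 2 * (((LX r).filter (fun σ => σ a < σ b)).card : ℝ) +
      (((LX r).filter (Bad r a b)).card : ℝ) := by
  have h1 : (LX r).card ≤ ((LX r).filter (fun σ => σ a < σ b)).card +
      ((LX r).filter (fun σ => σ b < σ a)).card := by
    rw [← card_union_of_disjoint]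
    · refine card_le_card fun σ hσ => ?_
      rw [mem_union, mem_filter, mem_filter]
      rcases lt_trichotomy (σ a) (σ b) with h | h | h
      · exact Or.inl ⟨hσ, h⟩
      · exact absurd (σ.injective h) hne
      · exact Or.inr ⟨hσ, h⟩
    · rw [disjoint_left]
      intro σ h h'
      rw [mem_filter] at h h'
      exact absurd h.2 (not_lt.2 h'.2.le)
  have h2 : ((LX r).filter (fun σ => σ b < σ a)).card ≤
      ((LX r).filter (Bad r a b)).card +
        ((LX r).filter (fun σ => σ b < σ a ∧ ¬ Bad r a b σ)).card := by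
    rw [← card_union_of_disjoint]
    · refine card_le_card fun σ hσ => ?_
      rw [mem_filter] at hσ
      rw [mem_union, mem_filter, mem_filter]
      by_cases h : Bad r a b σ
      · exact Or.inl ⟨hσ.1, h⟩
      · exact Or.inr ⟨hσ.1, hσ.2, h⟩
    · rw [disjoint_left]
      intro σ h h'
      rw [mem_filter] at h h'
      exact h'.2.2 h.2
  have h3 : ((LX r).filter (fun σ => σ b < σ a ∧ ¬ Bad r a b σ)).card ≤
      ((LX r).filter (fun σ => σ a < σ b)).card := by
    refine card_le_card_of_injOn (fun σ => (Equiv.swap a b).trans σ) ?_ ?_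
    · intro σ hσ
      rw [mem_coe, mem_filter] at hσ ⊢
      refine ⟨swap_mem hab hba hσ.1 hσ.2.2, ?_⟩
      simpa using hσ.2.1
    · intro σ _ τ _ h
      ext x
      have := congrArg (fun f => f (Equiv.swap a b x)) h
      simp only [Equiv.trans_apply, Equiv.swap_apply_self] at this
      rw [this]
  have : (LX r).card ≤ 2 * ((LX r).filter (fun σ => σ a < σ b)).card +
      ((LX r).filter (Bad r a b)).card := by omega
  exact_mod_cast this

/-- harmonic numbers -/
noncomputable def Hh (k : ℕ) : ℝ := ∑ i ∈ range k, 1 / ((i : ℝ) + 1)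

theorem Hh_zero : Hh 0 = 0 := by simp [Hh]

theorem Hh_succ (k : ℕ) : Hh (k + 1) = Hh k + 1 / ((k : ℝ) + 1) := by
  simp [Hh, sum_range_succ]

theorem Hh_mono {k m : ℕ} (h : k ≤ m) : Hh k ≤ Hh m := by
  refine sum_le_sum_of_subset_of_nonneg (range_subset_range.2 h) fun i _ _ => by positivity

theorem Hh_nonneg (k : ℕ) : 0 ≤ Hh k := sum_nonneg fun i _ => by positivity

theorem sub_div_le {k m j : ℕ} (h1 : k ≤ m) (h2 : m ≤ j) :
    ((m - k : ℕ) : ℝ) / (j : ℝ) ≤ Hh m - Hh k := by
  induction m, h1 using Nat.le_induction with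
  | base => simp
  | succ m hm ih =>
    have h3 := ih (by omega)
    rw [Hh_succ]
    have h4 : ((m + 1 - k : ℕ) : ℝ) = ((m - k : ℕ) : ℝ) + 1 := by
      rw [Nat.succ_sub hm]; push_cast; ring
    rw [h4, add_div]
    have h5 : (1 : ℝ) / (j : ℝ) ≤ 1 / ((m : ℝ) + 1) := by
      apply one_div_le_one_div_of_le (by positivity)
      exact_mod_cast h2
    linarith

theorem frac_le {P Q K : Finset (Fin n)} (h1 : P ⊆ Q) (h2 : Q.card ≤ K.card) :
    (((Q \ P).card : ℕ) : ℝ) / (K.card : ℝ) ≤ Hh Q.card - Hh P.card := by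
  rw [card_sdiff_of_subset h1]
  exact sub_div_le (card_le_card h1) h2

/-- accumulated potential of `a` on the lower side -/
noncomputable def HX (r : Fin n → Fin n → Prop) (A : Finset (Fin n)) (a : Fin n) : ℝ :=
  ∑ σ ∈ LX r, Hh (XF r A a σ).card

/-- accumulated potential of `a` on the upper side -/
noncomputable def HY (r : Fin n → Fin n → Prop) (A : Finset (Fin n)) (a : Fin n) : ℝ :=
  ∑ σ ∈ LX r, Hh (YF r A a σ).card

theorem X_part (hA : Good r A) {a b : Fin n} (ha : a ∈ A) (hb : b ∈ A) :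
    ∑ σ ∈ LX r, (((XF r A a σ \ XF r A b σ).card : ℝ) / ((J r a σ).card : ℝ) +
      ((XF r A b σ \ XF r A a σ).card : ℝ) / ((J r b σ).card : ℝ)) ≤ |HX r A a - HX r A b| := by
  rcases hA.down a ha b hb with h | h
  · refine le_trans ?_ (le_abs_self _)
    rw [HX, HX, ← sum_sub_distrib]
    refine sum_le_sum fun σ hσ => ?_
    have h1 := XF_anti (A := A) h σ
    have h2 : XF r A b σ \ XF r A a σ = ∅ := sdiff_eq_empty_iff_subset.2 h1
    rw [h2, card_empty, Nat.cast_zero, zero_div, add_zero]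
    exact frac_le h1 (by rw [card_J hA ha hσ]; omega)
  · rw [abs_sub_comm]
    refine le_trans ?_ (le_abs_self _)
    rw [HX, HX, ← sum_sub_distrib]
    refine sum_le_sum fun σ hσ => ?_
    have h1 := XF_anti (A := A) h σ
    have h2 : XF r A a σ \ XF r A b σ = ∅ := sdiff_eq_empty_iff_subset.2 h1
    rw [h2, card_empty, Nat.cast_zero, zero_div, zero_add]
    exact frac_le h1 (by rw [card_J hA hb hσ]; omega)

theorem Y_part (hA : Good r A) {a b : Fin n} (ha : a ∈ A) (hb : b ∈ A) :
    ∑ σ ∈ LX r, (((YF r A a σ \ YF r A b σ).card : ℝ) / ((J r a σ).card : ℝ) +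
      ((YF r A b σ \ YF r A a σ).card : ℝ) / ((J r b σ).card : ℝ)) ≤ |HY r A a - HY r A b| := by
  rcases hA.up a ha b hb with h | h
  · refine le_trans ?_ (le_abs_self _)
    rw [HY, HY, ← sum_sub_distrib]
    refine sum_le_sum fun σ hσ => ?_
    have h1 := YF_anti (A := A) h σ
    have h2 : YF r A b σ \ YF r A a σ = ∅ := sdiff_eq_empty_iff_subset.2 h1
    rw [h2, card_empty, Nat.cast_zero, zero_div, add_zero]
    exact frac_le h1 (by rw [card_J hA ha hσ]; omega)
  · rw [abs_sub_comm]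
    refine le_trans ?_ (le_abs_self _)
    rw [HY, HY, ← sum_sub_distrib]
    refine sum_le_sum fun σ hσ => ?_
    have h1 := YF_anti (A := A) h σ
    have h2 : YF r A a σ \ YF r A b σ = ∅ := sdiff_eq_empty_iff_subset.2 h1
    rw [h2, card_empty, Nat.cast_zero, zero_div, zero_add]
    exact frac_le h1 (by rw [card_J hA hb hσ]; omega)

open Classical in
theorem event_down (hA : Good r A) {a b : Fin n} (ha : a ∈ A) (hb : b ∈ A) (hne : a ≠ b) :
    (((LX r).filter (fun σ => ∃ d, lt r d b ∧ σ a < σ d)).card : ℝ) ≤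
      ∑ σ ∈ LX r, ((XF r A a σ \ XF r A b σ).card : ℝ) / ((J r a σ).card : ℝ) := by
  refine reinsert_le r a _ _ ?_
  rintro σ hσ t ht ⟨d, hd, h⟩
  have hda : d ≠ a := by
    rintro rfl
    exact hA.anti d ha b hb hne hd.1
  have h1 := (move_lt_iff (σ := σ) (t := t) hda).1 h
  rw [mem_sdiff, mem_XF, mem_XF]
  refine ⟨⟨(mem_J.1 ht).1, b, hb, d, hd, h1⟩, ?_⟩
  rintro ⟨h2, _⟩
  exact absurd (h2 d hd) (not_lt.2 h1)

open Classical in
theorem event_up (hA : Good r A) {a b : Fin n} (ha : a ∈ A) (hb : b ∈ A) (hne : a ≠ b) :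
    (((LX r).filter (fun σ => ∃ u, lt r b u ∧ σ u < σ a)).card : ℝ) ≤
      ∑ σ ∈ LX r, ((YF r A a σ \ YF r A b σ).card : ℝ) / ((J r a σ).card : ℝ) := by
  refine reinsert_le r a _ _ ?_
  rintro σ hσ t ht ⟨u, hu, h⟩
  have hua : u ≠ a := by
    rintro rfl
    exact hA.anti b hb u ha (Ne.symm hne) hu.1
  have h1 := (move_gt_iff (σ := σ) (t := t) hua).1 h
  rw [mem_sdiff, mem_YF, mem_YF]
  refine ⟨⟨fun c hc z hz => ?_, (mem_J.1 ht).2⟩, ?_⟩
  · exact lt_of_lt_of_le (LX_lt hσ (hA.sep c hc b hb z u hz hu)) h1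
  · rintro ⟨_, h2⟩
    exact absurd (h2 u hu) (not_lt.2 h1)

open Classical in
theorem bad_le (hA : Good r A) {a b : Fin n} (ha : a ∈ A) (hb : b ∈ A) (hne : a ≠ b) :
    (((LX r).filter (Bad r a b)).card : ℝ) ≤
      |HX r A a - HX r A b| + |HY r A a - HY r A b| := by
  have h1 : (((LX r).filter (Bad r a b)).card : ℝ) ≤
      ((((LX r).filter (fun σ => ∃ d, lt r d b ∧ σ a < σ d)).card : ℝ) +
      (((LX r).filter (fun σ => ∃ u, lt r b u ∧ σ u < σ a)).card : ℝ)) +
      ((((LX r).filter (fun σ => ∃ d, lt r d a ∧ σ b < σ d)).card : ℝ) +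
      (((LX r).filter (fun σ => ∃ u, lt r a u ∧ σ u < σ b)).card : ℝ)) := by
    have : (LX r).filter (Bad r a b) =
        (((LX r).filter (fun σ => ∃ d, lt r d b ∧ σ a < σ d)) ∪
        ((LX r).filter (fun σ => ∃ u, lt r b u ∧ σ u < σ a))) ∪
        (((LX r).filter (fun σ => ∃ d, lt r d a ∧ σ b < σ d)) ∪
        ((LX r).filter (fun σ => ∃ u, lt r a u ∧ σ u < σ b))) := by
      ext σ
      simp only [mem_union, mem_filter, Bad]
      rw [← and_or_left, ← and_or_left, ← and_or_left]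
    rw [this]
    have h2 := card_union_le (((LX r).filter (fun σ => ∃ d, lt r d b ∧ σ a < σ d)) ∪
        ((LX r).filter (fun σ => ∃ u, lt r b u ∧ σ u < σ a)))
        (((LX r).filter (fun σ => ∃ d, lt r d a ∧ σ b < σ d)) ∪
        ((LX r).filter (fun σ => ∃ u, lt r a u ∧ σ u < σ b)))
    have h3 := card_union_le ((LX r).filter (fun σ => ∃ d, lt r d b ∧ σ a < σ d))
        ((LX r).filter (fun σ => ∃ u, lt r b u ∧ σ u < σ a))
    have h4 := card_union_le ((LX r).filter (fun σ => ∃ d, lt r d a ∧ σ b < σ d))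
        ((LX r).filter (fun σ => ∃ u, lt r a u ∧ σ u < σ b))
    exact_mod_cast (by omega)
  have h2 := event_down hA ha hb hne
  have h3 := event_up hA ha hb hne
  have h4 := event_down hA hb ha (Ne.symm hne)
  have h5 := event_up hA hb ha (Ne.symm hne)
  have h6 := X_part hA ha hb
  have h7 := Y_part hA ha hb
  rw [sum_add_distrib] at h6 h7
  linarith

theorem prob_eq (r : Fin n → Fin n → Prop) (x y : Fin n) :
    prob r x y = (((LX r).filter (fun σ => σ x < σ y)).card : ℝ) / ((LX r).card : ℝ) := by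
  classical
  unfold prob
  rw [Nat.card_eq_fintype_card, Nat.card_eq_fintype_card, Fintype.card_subtype,
    Fintype.card_subtype]
  congr 2
  congr 1
  ext σ
  simp [LX]

theorem LX_pos (hr : IsPoset r) : 0 < (LX r).card := by
  classical
  haveI : IsPartialOrder (Fin n) r :=
    { refl := hr.1, trans := hr.2.1, antisymm := fun a b => hr.2.2 a b }
  obtain ⟨s, hs, hrs⟩ := extend_partialOrder r
  have hlt : ∀ a b, s a b → a ≠ b →
      (univ.filter (fun c => s c a ∧ c ≠ a)).card < (univ.filter (fun c => s c b ∧ c ≠ b)).card := by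
    intro a b hab hne
    apply card_lt_card
    rw [ssubset_iff_of_subset]
    · exact ⟨a, by simp [hab, hne], by simp⟩
    · intro c hc
      simp only [mem_filter, mem_univ, true_and] at hc ⊢
      refine ⟨hs.trans c a b hc.1 hab, ?_⟩
      rintro rfl
      exact hc.2 (hs.antisymm _ _ hc.1 hab)
  let f : Fin n → Fin n := fun a => ⟨(univ.filter (fun c => s c a ∧ c ≠ a)).card, by
    have : (univ.filter (fun c => s c a ∧ c ≠ a)).card < (univ : Finset (Fin n)).card := by
      apply card_lt_card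
      rw [ssubset_iff_of_subset (subset_univ _)]
      exact ⟨a, mem_univ _, by simp⟩
    simpa using this⟩
  have hf : Function.Injective f := by
    intro a b hab
    by_contra hne
    have h1 : (univ.filter (fun c => s c a ∧ c ≠ a)).card =
        (univ.filter (fun c => s c b ∧ c ≠ b)).card := by
      simpa [f] using hab
    rcases hs.total a b with h | h
    · have := hlt a b h hne; omega
    · have := hlt b a h (Ne.symm hne); omega
  refine card_pos.2 ⟨Equiv.ofBijective f (Finite.injective_iff_bijective.1 hf), ?_⟩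
  rw [mem_LX]
  intro a b hab
  show f a ≤ f b
  by_cases hne : a = b
  · rw [hne]
  · exact (hlt a b (hrs a b hab) hne).le

end Pool.Agent.Helper18.Interval
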