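import Mathlib
import Pool.Agent.Helper18.Interval.Pair

/-!
Pigeonhole step (problem MP_c890a7_co).
-/

set_option autoImplicit false

namespace Pool.Agent.Helper18.Interval

open Finset Pool.Agent.Helper1.Balance

variable {n : ℕ} {r : Fin n → Fin n → Prop} {A : Finset (Fin n)}

/-- index of the cell of `x` when `[0, B]` is cut into `m` cells -/
noncomputable def cell (B : ℝ) (m : ℕ) (x : ℝ) : ℕ := min ⌊x * m / B⌋₊ (m - 1)

theorem cell_lt {B : ℝ} {m : ℕ} (hm : 0 < m) (x : ℝ) : cell B m x < m := by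
  unfold cell; omega

theorem cell_bd {B : ℝ} {m : ℕ} (hB : 0 < B) (hm : 0 < m) {x : ℝ} (h0 : 0 ≤ x) (h1 : x ≤ B) :
    (cell B m x : ℝ) ≤ x * m / B ∧ x * m / B ≤ cell B m x + 1 := by
  have hu0 : 0 ≤ x * m / B := by positivity
  have hu1 : x * m / B ≤ m := by
    rw [div_le_iff₀ hB]
    have : (0 : ℝ) ≤ m := Nat.cast_nonneg m
    nlinarith
  have hfl := Nat.floor_le hu0
  have hfl2 := Nat.lt_floor_add_one (x * m / B)
  unfold cell
  rcases le_or_gt ⌊x * m / B⌋₊ (m - 1) with h | h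
  · rw [min_eq_left h]
    exact ⟨hfl, hfl2.le⟩
  · rw [min_eq_right h.le]
    have h2 : ((m - 1 : ℕ) : ℝ) = m - 1 := by
      rw [Nat.cast_sub hm]; simp
    have h3 : ((m - 1 : ℕ) : ℝ) ≤ ⌊x * m / B⌋₊ := by exact_mod_cast h.le
    constructor
    · linarith
    · rw [h2]; linarith

theorem cell_eq {B : ℝ} {m : ℕ} (hB : 0 < B) (hm : 0 < m) {x y : ℝ} (h0 : 0 ≤ x) (h1 : x ≤ B)
    (h2 : 0 ≤ y) (h3 : y ≤ B) (h : cell B m x = cell B m y) : |x - y| ≤ B / m := by
  obtain ⟨h4, h5⟩ := cell_bd hB hm h0 h1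
  obtain ⟨h6, h7⟩ := cell_bd hB hm h2 h3
  rw [h] at h4 h5
  have hm' : (0 : ℝ) < m := by exact_mod_cast hm
  have h8 : |x * m / B - y * m / B| ≤ 1 := by
    rw [abs_le]; constructor <;> linarith
  have h9 : x * m / B - y * m / B = (x - y) * (m / B) := by ring
  rw [h9, abs_mul, abs_of_pos (div_pos hm' hB)] at h8
  rw [le_div_iff₀ hm']
  have h10 : |x - y| * (m / B) = |x - y| * m / B := by ring
  rw [h10, div_le_one hB] at h8
  exact h8

theorem prob_le_one (r : Fin n → Fin n → Prop) (x y : Fin n) : prob r x y ≤ 1 := by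
  rw [prob_eq]
  apply div_le_one_of_le₀ _ (Nat.cast_nonneg _)
  exact_mod_cast card_filter_le _ _

theorem le_balance {x y : Fin n} (h1 : ¬ r x y) (h2 : ¬ r y x) {c : ℝ} (h3 : c ≤ prob r x y)
    (h4 : c ≤ prob r y x) : c ≤ balance r := by
  refine le_trans (le_min h3 h4) (le_csSup ⟨1, ?_⟩ ⟨x, y, h1, h2, rfl⟩)
  rintro t ⟨a, b, _, _, rfl⟩
  exact (min_le_left _ _).trans (prob_le_one r a b)

theorem Bad_comm {a b : Fin n} : Bad r a b = Bad r b a := by
  funext σ
  unfold Bad
  exact propext or_comm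

theorem prob_ge {a b : Fin n} (hr : IsPoset r) (hab : ¬ r a b) (hba : ¬ r b a) (hne : a ≠ b)
    {e : ℝ} (h : (open Classical in (((LX r).filter (Bad r a b)).card : ℝ)) ≤
      2 * e * (LX r).card) : 1 / 2 - e ≤ prob r a b := by
  classical
  have h1 := half_le hab hba hne
  have hN : (0 : ℝ) < (LX r).card := by exact_mod_cast LX_pos hr
  rw [prob_eq, le_div_iff₀ hN]
  have h2 : (((LX r).filter (Bad r a b)).card : ℝ) ≤ 2 * e * (LX r).card := by
    convert h
  have h3 : ((LX r).card : ℝ) ≤ 2 * (((LX r).filter (fun σ => σ a < σ b)).card : ℝ) +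
      (((LX r).filter (Bad r a b)).card : ℝ) := by
    convert h1
  have h4 : (((LX r).filter (fun σ => σ a < σ b)).card : ℝ) ≥ (1 / 2 - e) * (LX r).card := by
    nlinarith
  convert h4.le

theorem balance_ge_of_bad {a b : Fin n} (hr : IsPoset r) (hab : ¬ r a b) (hba : ¬ r b a)
    (hne : a ≠ b) {e : ℝ} (h : (open Classical in (((LX r).filter (Bad r a b)).card : ℝ)) ≤
      2 * e * (LX r).card) : 1 / 2 - e ≤ balance r := by
  refine le_balance hab hba (prob_ge hr hab hba hne h) (prob_ge hr hba hab (Ne.symm hne) ?_)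
  rw [← Bad_comm]
  exact h

theorem HX_bd {B : ℝ} {a : Fin n} (h : ∀ σ ∈ LX r, Hh (XF r A a σ).card ≤ B) (hr : IsPoset r) :
    0 ≤ HX r A a / (LX r).card ∧ HX r A a / (LX r).card ≤ B := by
  have hN : (0 : ℝ) < (LX r).card := by exact_mod_cast LX_pos hr
  constructor
  · exact div_nonneg (sum_nonneg fun σ _ => Hh_nonneg _) hN.le
  · rw [div_le_iff₀ hN]
    calc HX r A a ≤ ∑ σ ∈ LX r, B := sum_le_sum h
      _ = B * (LX r).card := by rw [sum_const, nsmul_eq_mul, mul_comm]

theorem HY_bd {B : ℝ} {a : Fin n} (h : ∀ σ ∈ LX r, Hh (YF r A a σ).card ≤ B) (hr : IsPoset r) :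
    0 ≤ HY r A a / (LX r).card ∧ HY r A a / (LX r).card ≤ B := by
  have hN : (0 : ℝ) < (LX r).card := by exact_mod_cast LX_pos hr
  constructor
  · exact div_nonneg (sum_nonneg fun σ _ => Hh_nonneg _) hN.le
  · rw [div_le_iff₀ hN]
    calc HY r A a ≤ ∑ σ ∈ LX r, B := sum_le_sum h
      _ = B * (LX r).card := by rw [sum_const, nsmul_eq_mul, mul_comm]

/-- two-dimensional pigeonhole -/
theorem balance_ge_two (hr : IsPoset r) (hA : Good r A) {m : ℕ} (hm : 0 < m)
    (hcard : m ^ 2 < A.card) {B : ℝ} (hB : 0 < B)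
    (hX : ∀ a ∈ A, ∀ σ ∈ LX r, Hh (XF r A a σ).card ≤ B)
    (hY : ∀ a ∈ A, ∀ σ ∈ LX r, Hh (YF r A a σ).card ≤ B) :
    1 / 2 - B / m ≤ balance r := by
  classical
  have hN : (0 : ℝ) < (LX r).card := by exact_mod_cast LX_pos hr
  obtain ⟨a, ha, b, hb, hne, hab⟩ := exists_ne_map_eq_of_card_lt_of_maps_to
    (s := A) (t := range m ×ˢ range m)
    (f := fun a => (cell B m (HX r A a / (LX r).card), cell B m (HY r A a / (LX r).card)))
    (by rw [card_product, card_range]; nlinarith)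
    (fun a _ => by
      simp only [coe_product, coe_range, Set.mem_prod, Set.mem_Iio]
      exact ⟨cell_lt hm _, cell_lt hm _⟩)
  rw [Prod.mk.injEq] at hab
  have h1 := cell_eq hB hm (HX_bd (hX a ha) hr).1 (HX_bd (hX a ha) hr).2
    (HX_bd (hX b hb) hr).1 (HX_bd (hX b hb) hr).2 hab.1
  have h2 := cell_eq hB hm (HY_bd (hY a ha) hr).1 (HY_bd (hY a ha) hr).2
    (HY_bd (hY b hb) hr).1 (HY_bd (hY b hb) hr).2 hab.2
  rw [← sub_div, abs_div, abs_of_pos hN, div_le_iff₀ hN] at h1 h2
  refine balance_ge_of_bad hr (hA.anti a ha b hb hne) (hA.anti b hb a ha (Ne.symm hne)) hne ?_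
  have h3 := bad_le hA ha hb hne
  have h4 : (((LX r).filter (Bad r a b)).card : ℝ) ≤ 2 * (B / m) * (LX r).card := by
    have : (((LX r).filter (Bad r a b)).card : ℝ) ≤
      |HX r A a - HX r A b| + |HY r A a - HY r A b| := by convert h3
    linarith
  convert h4

/-- one-dimensional pigeonhole, for antichains sorted both ways -/
theorem balance_ge_one (hr : IsPoset r) (hA : Good r A)
    (hs : ∀ a ∈ A, ∀ b ∈ A, ((∀ d, lt r d a → lt r d b) ∧ (∀ u, lt r b u → lt r a u)) ∨
      ((∀ d, lt r d b → lt r d a) ∧ (∀ u, lt r a u → lt r b u))) {m : ℕ} (hm : 0 < m)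
    (hcard : m < A.card) {B : ℝ} (hB : 0 < B)
    (hX : ∀ a ∈ A, ∀ σ ∈ LX r, Hh (XF r A a σ).card ≤ B)
    (hY : ∀ a ∈ A, ∀ σ ∈ LX r, Hh (YF r A a σ).card ≤ B) :
    1 / 2 - B / m ≤ balance r := by
  classical
  have hN : (0 : ℝ) < (LX r).card := by exact_mod_cast LX_pos hr
  obtain ⟨a, ha, b, hb, hne, hab⟩ := exists_ne_map_eq_of_card_lt_of_maps_to
    (s := A) (t := range m)
    (f := fun a => cell (2 * B) m (HY r A a / (LX r).card - HX r A a / (LX r).card + B))
    (by rw [card_range]; exact hcard)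
    (fun a _ => by
      simp only [coe_range, Set.mem_Iio]
      exact cell_lt hm _)
  have hXa := HX_bd (hX a ha) hr
  have hXb := HX_bd (hX b hb) hr
  have hYa := HY_bd (hY a ha) hr
  have hYb := HY_bd (hY b hb) hr
  have h1 := cell_eq (by positivity) hm (by linarith) (by linarith) (by linarith)
    (by linarith) hab
  have h2 : |HX r A a - HX r A b| + |HY r A a - HY r A b| =
      |(HY r A a - HX r A a) - (HY r A b - HX r A b)| := by
    rcases hs a ha b hb with h | h
    · have h3 : HX r A b ≤ HX r A a := sum_le_sum fun σ _ =>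
        Hh_mono (card_le_card (XF_anti h.1 σ))
      have h4 : HY r A a ≤ HY r A b := sum_le_sum fun σ _ =>
        Hh_mono (card_le_card (YF_anti h.2 σ))
      rw [abs_of_nonneg (by linarith), abs_of_nonpos (by linarith), abs_of_nonpos (by linarith)]
      ring
    · have h3 : HX r A a ≤ HX r A b := sum_le_sum fun σ _ =>
        Hh_mono (card_le_card (XF_anti h.1 σ))
      have h4 : HY r A b ≤ HY r A a := sum_le_sum fun σ _ =>
        Hh_mono (card_le_card (YF_anti h.2 σ))
      rw [abs_of_nonpos (by linarith), abs_of_nonneg (by linarith), abs_of_nonneg (by linarith)]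
      ring
  have h5 : HY r A a / (LX r).card - HX r A a / (LX r).card + B -
      (HY r A b / (LX r).card - HX r A b / (LX r).card + B) =
      ((HY r A a - HX r A a) - (HY r A b - HX r A b)) / (LX r).card := by ring
  rw [h5, abs_div, abs_of_pos hN, div_le_iff₀ hN, ← h2] at h1
  refine balance_ge_of_bad hr (hA.anti a ha b hb hne) (hA.anti b hb a ha (Ne.symm hne)) hne ?_
  have h3 := bad_le hA ha hb hne
  have h4 : (((LX r).filter (Bad r a b)).card : ℝ) ≤ 2 * (B / m) * (LX r).card := by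
    have h6 : (((LX r).filter (Bad r a b)).card : ℝ) ≤
      |HX r A a - HX r A b| + |HY r A a - HY r A b| := by convert h3
    have h7 : 2 * B / (m : ℝ) = 2 * (B / m) := by ring
    rw [h7] at h1
    linarith
  convert h4

end Pool.Agent.Helper18.Interval
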