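import Mathlib
import Pool.Agent.Helper18.Interval.Pigeon

/-!
Interval orders with a long interval (problem MP_c890a7_co).
-/

set_option autoImplicit false

namespace Pool.Agent.Helper18.Interval

open Finset Pool.Agent.Helper1.Balance

variable {n : ℕ} {r : Fin n → Fin n → Prop}

open Classical in
/-- elements incomparable to `a` -/
noncomputable def inc (r : Fin n → Fin n → Prop) (a : Fin n) : Finset (Fin n) :=
  univ.filter (fun v => ¬ r a v ∧ ¬ r v a)

theorem mem_inc {a v : Fin n} : v ∈ inc r a ↔ ¬ r a v ∧ ¬ r v a := by simp [inc]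

theorem card_J_le (a : Fin n) {σ : Equiv.Perm (Fin n)} :
    (J r a σ).card ≤ (inc r a).card + 1 := by
  classical
  have h1 : (J r a σ).card ≤ (insert a (inc r a)).card := by
    refine card_le_card_of_injOn (fun t => σ.symm t) ?_ (fun x _ y _ h => σ.symm.injective h)
    intro t ht
    rw [mem_coe, mem_J] at ht
    rw [mem_coe, mem_insert, mem_inc]
    by_cases h : σ.symm t = a
    · exact Or.inl h
    · refine Or.inr ⟨fun h' => ?_, fun h' => ?_⟩
      · have := ht.2 _ ⟨h', Ne.symm h⟩
        rw [Equiv.apply_symm_apply] at this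
        exact lt_irrefl _ this
      · have := ht.1 _ ⟨h', h⟩
        rw [Equiv.apply_symm_apply] at this
        exact lt_irrefl _ this
  exact h1.trans (card_insert_le _ _)

/-- interval representation -/
structure Rep (r : Fin n → Fin n → Prop) (lo hi : Fin n → ℝ) : Prop where
  le : ∀ a, lo a ≤ hi a
  iff : ∀ a b, r a b ↔ a = b ∨ hi a < lo b

variable {lo hi : Fin n → ℝ}

theorem Rep.lt_iff (h : Rep r lo hi) {a b : Fin n} : lt r a b ↔ hi a < lo b := by
  unfold lt
  rw [h.iff]
  constructor
  · rintro ⟨h1 | h1, h2⟩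
    · exact absurd h1 h2
    · exact h1
  · intro h1
    refine ⟨Or.inr h1, ?_⟩
    rintro rfl
    exact absurd (h.le a) (not_le.2 h1)

theorem Rep.inc_iff (h : Rep r lo hi) {a v : Fin n} :
    v ∈ inc r a ↔ v ≠ a ∧ lo v ≤ hi a ∧ lo a ≤ hi v := by
  rw [mem_inc, h.iff, h.iff]
  push Not
  constructor
  · rintro ⟨⟨h1, h2⟩, h3, h4⟩
    exact ⟨h3, h2, h4⟩
  · rintro ⟨h1, h2, h3⟩
    exact ⟨⟨Ne.symm h1, h2⟩, h1, h3⟩

theorem Rep.isPoset (h : Rep r lo hi) : IsPoset r := by
  refine ⟨fun a => (h.iff a a).2 (Or.inl rfl), fun a b c hab hbc => ?_, fun a b hab hba => ?_⟩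
  · rw [h.iff] at hab hbc ⊢
    rcases hab with rfl | hab
    · exact hbc
    · rcases hbc with rfl | hbc
      · exact Or.inr hab
      · exact Or.inr (by linarith [h.le b])
  · rw [h.iff] at hab hba
    rcases hab with rfl | hab
    · rfl
    · rcases hba with h' | hba
      · exact h'.symm
      · linarith [h.le a, h.le b]

theorem Rep.anti_of_mem (h : Rep r lo hi) (S : Finset (Fin n)) (x : ℝ)
    (hS : ∀ v ∈ S, lo v ≤ x ∧ x ≤ hi v) : IsAnti r S := by
  intro a ha b hb hne hab
  rw [h.iff] at hab
  rcases hab with rfl | hab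
  · exact hne rfl
  · linarith [(hS a ha).2, (hS b hb).1]

open Classical in
/-- at most `w` intervals contain a point -/
theorem Rep.clique (h : Rep r lo hi) {w : ℕ} (hw : ∀ S, IsAnti r S → S.card ≤ w) (x : ℝ) :
    (univ.filter (fun v => lo v ≤ x ∧ x ≤ hi v)).card ≤ w :=
  hw _ (h.anti_of_mem _ x (fun v hv => by simpa using hv))

/-- every antichain of an interval order is good -/
theorem Rep.good (h : Rep r lo hi) {A : Finset (Fin n)} (hA : IsAnti r A) : Good r A where
  anti := hA
  sep := by
    intro a ha b hb d u hd hu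
    rw [h.lt_iff] at hd hu ⊢
    have h1 : lo a ≤ hi b := by
      by_cases hab : a = b
      · subst hab; exact h.le a
      · by_contra h2
        exact hA b hb a ha (Ne.symm hab) ((h.iff _ _).2 (Or.inr (not_le.1 h2)))
    linarith
  down := by
    intro a _ b _
    rcases le_total (lo a) (lo b) with h1 | h1
    · left; intro d hd; rw [h.lt_iff] at hd ⊢; linarith
    · right; intro d hd; rw [h.lt_iff] at hd ⊢; linarith
  up := by
    intro a _ b _
    rcases le_total (hi a) (hi b) with h1 | h1
    · right; intro d hd; rw [h.lt_iff] at hd ⊢; linarith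
    · left; intro d hd; rw [h.lt_iff] at hd ⊢; linarith

open Classical in
/-- elements of a set `V` of intervals with at most `c` elements of `I` before any of them -/
theorem Rep.small (h : Rep r lo hi) {w : ℕ} (hw : ∀ S, IsAnti r S → S.card ≤ w)
    (I V : Finset (Fin n)) (hVI : V ⊆ I) {c : ℕ}
    (hV : ∀ v ∈ V, (I.filter (fun d => lt r d v)).card ≤ c) : V.card ≤ c + w := by
  rcases V.eq_empty_or_nonempty with rfl | hne
  · simp
  obtain ⟨v, hv, hmax⟩ := exists_max_image V lo hne
  have h1 : V ⊆ I.filter (fun d => lt r d v) ∪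
      univ.filter (fun u => lo u ≤ lo v ∧ lo v ≤ hi u) := by
    intro u hu
    rw [mem_union, mem_filter, mem_filter]
    by_cases h2 : hi u < lo v
    · exact Or.inl ⟨hVI hu, h.lt_iff.2 h2⟩
    · exact Or.inr ⟨mem_univ _, hmax u hu, not_lt.1 h2⟩
  calc V.card ≤ _ := card_le_card h1
    _ ≤ _ := card_union_le _ _
    _ ≤ c + w := add_le_add (hV v hv) (h.clique hw _)

open Classical in
/-- a short interval inside a long one with a prescribed number of predecessors -/
theorem Rep.exists_short (h : Rep r lo hi) {w : ℕ} (hw : ∀ S, IsAnti r S → S.card ≤ w)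
    (a : Fin n) {k : ℕ} (hk : 1 ≤ k) (hT : k + 2 * w ≤ (inc r a).card + 1) :
    ∃ y ∈ inc r a, lo a ≤ lo y ∧ hi y ≤ hi a ∧
      k ≤ ((inc r a).filter (fun d => lt r d y)).card ∧
      ((inc r a).filter (fun d => ¬ lt r y d)).card + 1 ≤ k + 2 * w := by
  set I := inc r a with hI
  set S := I.filter (fun y => k ≤ (I.filter (fun d => lt r d y)).card) with hS
  have hw1 : 1 ≤ w := by
    have := hw {a} (by
      intro x hx y hy hxy
      rw [mem_singleton] at hx hy
      exact absurd (hx.trans hy.symm) hxy)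
    simpa using this
  have hcS : (I \ S).card ≤ (k - 1) + w := by
    refine h.small hw I (I \ S) sdiff_subset ?_
    intro v hv
    rw [mem_sdiff, hS, mem_filter] at hv
    have : ¬ k ≤ (I.filter (fun d => lt r d v)).card := fun h' => hv.2 ⟨hv.1, h'⟩
    omega
  have hsum : (I \ S).card + S.card = I.card := card_sdiff_add_card_eq_card (filter_subset _ _)
  have hSne : S.Nonempty := by
    rw [← card_pos]; omega
  obtain ⟨y, hy, hmin⟩ := exists_min_image S hi hSne
  have hyS := hy
  rw [hS, mem_filter] at hy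
  obtain ⟨hyI, hyk⟩ := hy
  have hyI' := hyI
  rw [hI, h.inc_iff] at hyI'
  refine ⟨y, hyI, ?_, ?_, hyk, ?_⟩
  · obtain ⟨d, hd⟩ : (I.filter (fun d => lt r d y)).Nonempty := by
      rw [← card_pos]; omega
    rw [mem_filter, h.lt_iff, hI, h.inc_iff] at hd
    linarith [hd.1.2.2, hd.2]
  · by_contra hlt
    push Not at hlt
    have h1 : insert a S ⊆ univ.filter (fun u => lo u ≤ hi a ∧ hi a ≤ hi u) := by
      intro u hu
      rw [mem_insert] at hu
      rw [mem_filter]
      rcases hu with rfl | hu
      · exact ⟨mem_univ _, h.le u, le_rfl⟩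
      · have h2 := hmin u hu
        rw [hS, mem_filter, hI, h.inc_iff] at hu
        exact ⟨mem_univ _, hu.1.2.1, by linarith⟩
    have h2 := (card_le_card h1).trans (h.clique hw _)
    rw [card_insert_of_notMem] at h2
    · omega
    · intro ha
      rw [hS, mem_filter, hI, h.inc_iff] at ha
      exact ha.1.1 rfl
  · have h1 : I.filter (fun d => ¬ lt r y d) ⊆
        (I.filter (fun d => hi d < hi y)) ∪ univ.filter (fun u => lo u ≤ hi y ∧ hi y ≤ hi u) := by
      intro u hu
      rw [mem_filter, h.lt_iff] at hu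
      rw [mem_union, mem_filter, mem_filter]
      by_cases h2 : hi u < hi y
      · exact Or.inl ⟨hu.1, h2⟩
      · exact Or.inr ⟨mem_univ _, not_lt.1 hu.2, not_lt.1 h2⟩
    have h2 : (I.filter (fun d => hi d < hi y)).card ≤ (k - 1) + w := by
      refine h.small hw I _ (filter_subset _ _) ?_
      intro v hv
      rw [mem_filter] at hv
      by_contra h3
      have h4 : v ∈ S := by
        rw [hS, mem_filter]
        exact ⟨hv.1, by omega⟩
      exact absurd (hmin v h4) (not_le.2 hv.2)
    have h3 := (card_le_card h1).trans (card_union_le _ _)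
    have h4 := h.clique hw (hi y)
    omega

open Classical in
/-- intervals containing the point `x` -/
noncomputable def cl (lo hi : Fin n → ℝ) (x : ℝ) : Finset (Fin n) :=
  univ.filter (fun v => lo v ≤ x ∧ x ≤ hi v)

theorem mem_cl {x : ℝ} {v : Fin n} : v ∈ cl lo hi x ↔ lo v ≤ x ∧ x ≤ hi v := by simp [cl]

theorem Rep.cl_le (h : Rep r lo hi) {w : ℕ} (hw : ∀ S, IsAnti r S → S.card ≤ w) (x : ℝ) :
    (cl lo hi x).card ≤ w :=
  hw _ (h.anti_of_mem _ x (fun _ hv => mem_cl.1 hv))

theorem Rep.cl_erase_le (h : Rep r lo hi) {w : ℕ} (hw : ∀ S, IsAnti r S → S.card ≤ w) (x : ℝ)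
    {a : Fin n} (ha : a ∈ cl lo hi x) : ((cl lo hi x).erase a).card + 1 ≤ w := by
  rw [card_erase_add_one ha]
  exact h.cl_le hw x

/-- an element incomparable to `a` before some element below `a` contains `lo a` -/
theorem Rep.mem_cl_lo (h : Rep r lo hi) {a v d : Fin n} {σ : Equiv.Perm (Fin n)}
    (hσ : σ ∈ LX r) (hv : v ∈ inc r a) (hd : lt r d a) (hvd : σ v ≤ σ d) :
    v ∈ (cl lo hi (lo a)).erase a := by
  rw [h.inc_iff] at hv
  have h1 : ¬ lt r d v := fun h' => absurd (LX_lt hσ h') (not_lt.2 hvd)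
  rw [h.lt_iff] at hd h1
  rw [mem_erase, mem_cl]
  exact ⟨hv.1, by linarith [not_lt.1 h1], hv.2.2⟩

theorem Rep.mem_cl_hi (h : Rep r lo hi) {a v u : Fin n} {σ : Equiv.Perm (Fin n)}
    (hσ : σ ∈ LX r) (hv : v ∈ inc r a) (hu : lt r a u) (hvd : σ u ≤ σ v) :
    v ∈ (cl lo hi (hi a)).erase a := by
  rw [h.inc_iff] at hv
  have h1 : ¬ lt r v u := fun h' => absurd (LX_lt hσ h') (not_lt.2 hvd)
  rw [h.lt_iff] at hu h1
  rw [mem_erase, mem_cl]
  exact ⟨hv.1, hv.2.1, by linarith [not_lt.1 h1]⟩

/-- almost all elements incomparable to `a` lie in its window -/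
theorem Rep.card_J_ge (h : Rep r lo hi) {w : ℕ} (hw : ∀ S, IsAnti r S → S.card ≤ w)
    (a : Fin n) {σ : Equiv.Perm (Fin n)} (hσ : σ ∈ LX r) :
    (inc r a).card + 3 ≤ (J r a σ).card + 2 * w := by
  classical
  have ha1 : a ∈ cl lo hi (lo a) := mem_cl.2 ⟨le_rfl, h.le a⟩
  have ha2 : a ∈ cl lo hi (hi a) := mem_cl.2 ⟨h.le a, le_rfl⟩
  have h1 := h.cl_erase_le hw (lo a) ha1
  have h2 := h.cl_erase_le hw (hi a) ha2
  set P1 := (cl lo hi (lo a)).erase a
  set P2 := (cl lo hi (hi a)).erase a
  have h3 : insert a (inc r a) ⊆ ((J r a σ).image (fun t => σ.symm t)) ∪ (P1 ∪ P2) := by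
    intro v hv
    rw [mem_insert] at hv
    rw [mem_union, mem_image, mem_union]
    rcases hv with rfl | hv
    · exact Or.inl ⟨σ v, self_mem_J hσ, by simp⟩
    · by_cases h4 : σ v ∈ J r a σ
      · exact Or.inl ⟨σ v, h4, by simp⟩
      · right
        rw [mem_J, not_and_or] at h4
        rcases h4 with h4 | h4
        · push Not at h4
          obtain ⟨d, hd, hvd⟩ := h4
          exact Or.inl (h.mem_cl_lo hσ hv hd hvd)
        · push Not at h4
          obtain ⟨u, hu, hvu⟩ := h4
          exact Or.inr (h.mem_cl_hi hσ hv hu hvu)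
  have h4 : a ∉ inc r a := by rw [h.inc_iff]; exact fun h' => h'.1 rfl
  have h5 := card_le_card h3
  rw [card_insert_of_notMem h4] at h5
  have h6 := card_union_le ((J r a σ).image (fun t => σ.symm t)) (P1 ∪ P2)
  have h7 := card_union_le P1 P2
  have h8 : ((J r a σ).image (fun t => σ.symm t)).card ≤ (J r a σ).card := card_image_le
  omega

theorem prob_add (hr : IsPoset r) {x y : Fin n} (h : x ≠ y) : prob r x y + prob r y x = 1 := by
  classical
  have hN : (0 : ℝ) < (LX r).card := by exact_mod_cast LX_pos hr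
  rw [prob_eq, prob_eq, ← add_div, div_eq_one_iff_eq hN.ne']
  have : (LX r).card = ((LX r).filter (fun σ => σ x < σ y)).card +
      ((LX r).filter (fun σ => σ y < σ x)).card := by
    rw [← card_union_of_disjoint]
    · congr 1
      ext σ
      rw [mem_union, mem_filter, mem_filter]
      constructor
      · intro hσ
        rcases lt_trichotomy (σ x) (σ y) with h1 | h1 | h1
        · exact Or.inl ⟨hσ, h1⟩
        · exact absurd (σ.injective h1) h
        · exact Or.inr ⟨hσ, h1⟩
      · rintro (h1 | h1) <;> exact h1.1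
    · rw [disjoint_left]
      intro σ h1 h2
      rw [mem_filter] at h1 h2
      exact absurd h1.2 (not_lt.2 h2.2.le)
  rw [this]
  push_cast
  congr!

/-- the probability that the long interval `a` precedes the short interval `y` -/
theorem Rep.long_bounds (h : Rep r lo hi) {w : ℕ} (hw : ∀ S, IsAnti r S → S.card ≤ w)
    (a : Fin n) {k : ℕ} (hk : 1 ≤ k) (hT : k + 2 * w ≤ (inc r a).card + 1) :
    ∃ y, ¬ r a y ∧ ¬ r y a ∧ a ≠ y ∧
      ((k : ℝ) + 1 - w) / ((inc r a).card + 1) ≤ prob r a y ∧
      prob r a y ≤ ((k : ℝ) + 2 * w) / ((inc r a).card + 3 - 2 * w) := by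
  classical
  obtain ⟨y, hy, hlo, hhi, hdn, hup⟩ := h.exists_short hw a hk hT
  have hy' := mem_inc.1 hy
  have hay : a ≠ y := fun h' => hy'.1 ((h.iff a y).2 (Or.inl h'))
  have hN : (0 : ℝ) < (LX r).card := by exact_mod_cast LX_pos h.isPoset
  refine ⟨y, hy'.1, hy'.2, hay, ?_, ?_⟩
  · -- lower bound
    have h1 := le_reinsert r a (fun σ => σ a < σ y) (fun σ => (J r a σ).filter (fun t => t < σ y))
      (by
        intro σ hσ t ht
        rw [mem_filter] at ht
        exact ⟨ht.1, (move_lt_iff (Ne.symm hay)).2 ht.2⟩)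
    have h2 : ∀ σ ∈ LX r, ((k : ℝ) + 1 - w) / ((inc r a).card + 1) ≤
        (((J r a σ).filter (fun t => t < σ y)).card : ℝ) / ((J r a σ).card : ℝ) := by
      intro σ hσ
      have ha1 : a ∈ cl lo hi (lo a) := mem_cl.2 ⟨le_rfl, h.le a⟩
      have h3 := h.cl_erase_le hw (lo a) ha1
      have h4 : (inc r a).filter (fun d => lt r d y) ⊆
          (((J r a σ).filter (fun t => t < σ y)).image (fun t => σ.symm t)) ∪
            (cl lo hi (lo a)).erase a := by
        intro v hv
        rw [mem_filter] at hv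
        have hvy : σ v < σ y := LX_lt hσ hv.2
        rw [mem_union, mem_image]
        by_cases h4 : σ v ∈ J r a σ
        · exact Or.inl ⟨σ v, mem_filter.2 ⟨h4, hvy⟩, by simp⟩
        · right
          rw [mem_J, not_and_or] at h4
          rcases h4 with h4 | h4
          · push Not at h4
            obtain ⟨d, hd, hvd⟩ := h4
            exact h.mem_cl_lo hσ hv.1 hd hvd
          · push Not at h4
            obtain ⟨u, hu, hvu⟩ := h4
            exfalso
            have h5 : lt r y u := by
              rw [h.lt_iff] at hu ⊢; linarith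
            exact absurd (LX_lt hσ h5) (not_lt.2 (hvu.trans hvy.le))
      have h5 := (card_le_card h4).trans (card_union_le _ _)
      have h6 : (((J r a σ).filter (fun t => t < σ y)).image (fun t => σ.symm t)).card ≤
        ((J r a σ).filter (fun t => t < σ y)).card := card_image_le
      have h7 : k + 1 ≤ ((J r a σ).filter (fun t => t < σ y)).card + w := by omega
      have h8 : (k : ℝ) + 1 - w ≤ (((J r a σ).filter (fun t => t < σ y)).card : ℝ) := by
        have : ((k + 1 : ℕ) : ℝ) ≤ ((((J r a σ).filter (fun t => t < σ y)).card + w : ℕ) : ℝ) := by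
          exact_mod_cast h7
        push_cast at this
        linarith
      have h9 : (J r a σ).card ≤ (inc r a).card + 1 := card_J_le a
      have h10 : 0 < (J r a σ).card := card_pos.2 ⟨_, self_mem_J hσ⟩
      calc ((k : ℝ) + 1 - w) / ((inc r a).card + 1)
          ≤ (((J r a σ).filter (fun t => t < σ y)).card : ℝ) / ((inc r a).card + 1) := by
            gcongr
        _ ≤ _ := by
            gcongr
            exact_mod_cast h9
    rw [prob_eq, le_div_iff₀ hN]
    refine le_trans ?_ h1
    calc ((k : ℝ) + 1 - w) / ((inc r a).card + 1) * (LX r).card =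
        ∑ σ ∈ LX r, ((k : ℝ) + 1 - w) / ((inc r a).card + 1) := by
          rw [sum_const, nsmul_eq_mul, mul_comm]
      _ ≤ _ := sum_le_sum h2
  · -- upper bound
    have h1 := reinsert_le r a (fun σ => σ a < σ y) (fun σ => (J r a σ).filter (fun t => t ≤ σ y))
      (by
        intro σ hσ t ht hp
        rw [mem_filter]
        exact ⟨ht, (move_lt_iff (Ne.symm hay)).1 hp⟩)
    have h2 : ∀ σ ∈ LX r,
        (((J r a σ).filter (fun t => t ≤ σ y)).card : ℝ) / ((J r a σ).card : ℝ) ≤
        ((k : ℝ) + 2 * w) / ((inc r a).card + 3 - 2 * w) := by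
      intro σ hσ
      have h4 : ((J r a σ).filter (fun t => t ≤ σ y)).card ≤
          (insert a ((inc r a).filter (fun d => ¬ lt r y d))).card := by
        refine card_le_card_of_injOn (fun t => σ.symm t) ?_ (fun x _ y _ h => σ.symm.injective h)
        intro t ht
        rw [mem_coe, mem_filter, mem_J] at ht
        rw [mem_coe, mem_insert, mem_filter, mem_inc]
        by_cases h : σ.symm t = a
        · exact Or.inl h
        · refine Or.inr ⟨⟨fun h' => ?_, fun h' => ?_⟩, fun h' => ?_⟩
          · have := ht.1.2 _ ⟨h', Ne.symm h⟩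
            rw [Equiv.apply_symm_apply] at this
            exact lt_irrefl _ this
          · have := ht.1.1 _ ⟨h', h⟩
            rw [Equiv.apply_symm_apply] at this
            exact lt_irrefl _ this
          · have := LX_lt hσ h'
            rw [Equiv.apply_symm_apply] at this
            exact absurd this (not_lt.2 ht.2)
      have h5 := h4.trans (card_insert_le _ _)
      have h6 : ((J r a σ).filter (fun t => t ≤ σ y)).card ≤ k + 2 * w := by omega
      have h7 := h.card_J_ge hw a hσ
      have h8 : ((inc r a).card : ℝ) + 3 - 2 * w ≤ (J r a σ).card := by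
        have : (((inc r a).card + 3 : ℕ) : ℝ) ≤ (((J r a σ).card + 2 * w : ℕ) : ℝ) := by
          exact_mod_cast h7
        push_cast at this
        linarith
      have h9 : (0 : ℝ) < (inc r a).card + 3 - 2 * w := by
        have : ((k + 2 * w : ℕ) : ℝ) ≤ (((inc r a).card + 1 : ℕ) : ℝ) := by exact_mod_cast hT
        push_cast at this
        have : (0 : ℝ) ≤ k := Nat.cast_nonneg k
        linarith
      calc (((J r a σ).filter (fun t => t ≤ σ y)).card : ℝ) / ((J r a σ).card : ℝ)
          ≤ ((k : ℝ) + 2 * w) / ((J r a σ).card : ℝ) := by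
            gcongr
            exact_mod_cast h6
        _ ≤ _ := by gcongr
    rw [prob_eq, div_le_iff₀ hN]
    refine le_trans h1 ?_
    calc _ ≤ ∑ σ ∈ LX r, ((k : ℝ) + 2 * w) / ((inc r a).card + 3 - 2 * w) := sum_le_sum h2
      _ = ((k : ℝ) + 2 * w) / ((inc r a).card + 3 - 2 * w) * (LX r).card := by
          rw [sum_const, nsmul_eq_mul, mul_comm]

end Pool.Agent.Helper18.Interval
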