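import Mathlib
import Pool.Agent.Helper1.BalanceProof
import Pool.Agent.Helper18.Interval.Long

/-!
Lower bounds for the balance constants of interval orders and semiorders
(problem MP_c890a7_co).
-/

set_option autoImplicit false

namespace Pool.Agent.Helper18.Interval

open Finset Pool.Agent.Helper1.Balance

variable {n : ℕ} {r : Fin n → Fin n → Prop} {lo hi : Fin n → ℝ}

theorem Hh_le_log {k : ℕ} : Hh k ≤ 1 + Real.log k := by
  have h := harmonic_le_one_add_log k
  have h1 : ((harmonic k : ℚ) : ℝ) = Hh k := by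
    unfold harmonic Hh
    push_cast
    refine sum_congr rfl fun i _ => ?_
    rw [one_div]
  rw [← h1]
  exact h

theorem log_nonneg' (w : ℕ) : 0 ≤ Real.log w := by
  rcases Nat.eq_zero_or_pos w with rfl | h
  · simp
  · exact Real.log_nonneg (by exact_mod_cast h)

theorem XF_card_le {A : Finset (Fin n)} (hA : Good r A) {a : Fin n} (ha : a ∈ A)
    {σ : Equiv.Perm (Fin n)} (hσ : σ ∈ LX r) : (XF r A a σ).card ≤ (inc r a).card + 1 := by
  have h1 := card_J hA ha hσ
  have h2 : (J r a σ).card ≤ (inc r a).card + 1 := card_J_le a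
  omega

theorem YF_card_le {A : Finset (Fin n)} (hA : Good r A) {a : Fin n} (ha : a ∈ A)
    {σ : Equiv.Perm (Fin n)} (hσ : σ ∈ LX r) : (YF r A a σ).card ≤ (inc r a).card + 1 := by
  have h1 := card_J hA ha hσ
  have h2 : (J r a σ).card ≤ (inc r a).card + 1 := card_J_le a
  omega

/-- general statement for posets with a large good antichain -/
theorem balance_ge_good (hr : IsPoset r) {A : Finset (Fin n)} (hA : Good r A) {m T : ℕ}
    (hm : 0 < m) (hT : 1 ≤ T) (hcard : m ^ 2 < A.card) (hinc : ∀ a ∈ A, (inc r a).card + 1 ≤ T) :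
    1 / 2 - (1 + Real.log T) / m ≤ balance r := by
  have hB : (0 : ℝ) < 1 + Real.log T := by have := log_nonneg' T; linarith
  refine balance_ge_two hr hA hm hcard hB ?_ ?_
  · intro a ha σ hσ
    exact (Hh_mono ((XF_card_le hA ha hσ).trans (hinc a ha))).trans Hh_le_log
  · intro a ha σ hσ
    exact (Hh_mono ((YF_card_le hA ha hσ).trans (hinc a ha))).trans Hh_le_log

/-- interval orders with a long interval -/
theorem Rep.balance_long (h : Rep r lo hi) {w : ℕ} (hw : ∀ S, IsAnti r S → S.card ≤ w)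
    (hw4 : 4 ≤ w) (a : Fin n) (ha : w ^ 2 ≤ (inc r a).card) : 1 / 2 - 6 / (w : ℝ) ≤ balance r := by
  set T := (inc r a).card with hTdef
  have hwT : 4 * w ≤ T := by nlinarith
  obtain ⟨y, h1, h2, hne, h3, h4⟩ := h.long_bounds hw a (k := T / 2) (by omega) (by omega)
  have hwR : (4 : ℝ) ≤ w := by exact_mod_cast hw4
  have hTR : (w : ℝ) ^ 2 ≤ T := by exact_mod_cast ha
  have hk1 : ((T / 2 : ℕ) : ℝ) ≤ T / 2 := Nat.cast_div_le
  have hk2 : (T : ℝ) / 2 - 1 / 2 ≤ ((T / 2 : ℕ) : ℝ) := by
    have : T ≤ 2 * (T / 2) + 1 := by omega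
    have : ((T : ℕ) : ℝ) ≤ ((2 * (T / 2) + 1 : ℕ) : ℝ) := by exact_mod_cast this
    push_cast at this
    linarith
  rw [← hTdef] at h3 h4
  refine le_balance h1 h2 ?_ ?_
  · refine le_trans ?_ h3
    rw [le_div_iff₀ (by positivity)]
    have h5 : (6 : ℝ) / w * (T + 1) ≥ w := by
      rw [ge_iff_le, div_mul_eq_mul_div, le_div_iff₀ (by linarith)]
      nlinarith
    nlinarith
  · have h6 := prob_add h.isPoset hne
    have h7 : prob r y a = 1 - prob r a y := by linarith
    rw [h7]
    have h8 : ((T / 2 : ℕ) + 2 * (w : ℝ)) / (T + 3 - 2 * w) ≤ 1 / 2 + 6 / w := by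
      have hd : (0 : ℝ) < T + 3 - 2 * w := by nlinarith
      rw [div_le_iff₀ hd]
      have h9 : (3 : ℝ) * w ≤ 6 / w * (T + 3 - 2 * w) := by
        rw [div_mul_eq_mul_div, le_div_iff₀ (by linarith)]
        nlinarith
      nlinarith
    linarith

/-- **Kahn-Saks for interval orders, with a rate.** -/
theorem Rep.lower (h : Rep r lo hi) {w : ℕ} (hw : HasWidth r w) (hw1 : 1 ≤ w) :
    1 / 2 - (2 + 4 * Real.log w) / Real.sqrt w ≤ balance r := by
  obtain ⟨⟨A, hAc, hA⟩, hmax⟩ := hw
  have hlog := log_nonneg' w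
  have hw1R : (1 : ℝ) ≤ w := by exact_mod_cast hw1
  have hsq : 0 < Real.sqrt w := Real.sqrt_pos.2 (by linarith)
  have hss : Real.sqrt w * Real.sqrt w = w := Real.mul_self_sqrt (by linarith)
  rcases Nat.lt_or_ge w 4 with hw4 | hw4
  · have h1 : Real.sqrt w ≤ 2 := by
      rw [show (2 : ℝ) = Real.sqrt 4 by
        rw [show (4 : ℝ) = 2 ^ 2 by norm_num]; exact (Real.sqrt_sq (by norm_num)).symm]
      apply Real.sqrt_le_sqrt
      exact_mod_cast hw4.le
    have h2 : (1 : ℝ) / 2 ≤ (2 + 4 * Real.log w) / Real.sqrt w := by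
      rw [le_div_iff₀ hsq]; linarith
    have := balance_nonneg r
    linarith
  · have hw4R : (4 : ℝ) ≤ w := by exact_mod_cast hw4
    have hsq2 : 2 ≤ Real.sqrt w := by
      rw [show (2 : ℝ) = Real.sqrt 4 by
        rw [show (4 : ℝ) = 2 ^ 2 by norm_num]; exact (Real.sqrt_sq (by norm_num)).symm]
      exact Real.sqrt_le_sqrt hw4R
    by_cases hc : ∃ a, w ^ 2 ≤ (inc r a).card
    · obtain ⟨a, ha⟩ := hc
      refine le_trans ?_ (h.balance_long hmax hw4 a ha)
      have h1 : (6 : ℝ) / w ≤ (2 + 4 * Real.log w) / Real.sqrt w := by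
        rw [div_le_div_iff₀ (by linarith) hsq]
        have h2 : (1 : ℝ) ≤ Real.log w := by
          rw [Real.le_log_iff_exp_le (by linarith)]
          have := Real.exp_one_lt_d9
          linarith
        nlinarith
      linarith
    · push Not at hc
      have h1 := balance_ge_good h.isPoset (h.good hA) (m := Nat.sqrt (w - 1)) (T := w ^ 2)
        (Nat.sqrt_pos.2 (by omega)) (Nat.one_le_pow _ _ (by omega))
        (by rw [hAc]; have := Nat.sqrt_le' (w - 1); omega)
        (fun a _ => hc a)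
      refine le_trans ?_ h1
      have h2 : Real.sqrt w ≤ (Nat.sqrt (w - 1) : ℝ) + 1 := by
        rw [Real.sqrt_le_left (by positivity)]
        have h3 := Nat.succ_le_succ_sqrt' (w - 1)
        have h4 : w ≤ (Nat.sqrt (w - 1) + 1) ^ 2 := by
          have : w - 1 + 1 = w := by omega
          simpa [this] using h3
        exact_mod_cast h4
      have h5 : Real.sqrt w / 2 ≤ (Nat.sqrt (w - 1) : ℝ) := by linarith
      have h6 : (1 + Real.log ((w ^ 2 : ℕ) : ℝ)) / (Nat.sqrt (w - 1) : ℝ) ≤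
          (2 + 4 * Real.log w) / Real.sqrt w := by
        have h7 : Real.log ((w ^ 2 : ℕ) : ℝ) = 2 * Real.log w := by
          push_cast
          rw [Real.log_pow]
          norm_num
        rw [h7]
        calc (1 + 2 * Real.log w) / (Nat.sqrt (w - 1) : ℝ)
            ≤ (1 + 2 * Real.log w) / (Real.sqrt w / 2) := by gcongr
          _ = (2 + 4 * Real.log w) / Real.sqrt w := by
            rw [div_div_eq_mul_div]; ring
      linarith

/-- elements of a semiorder have few incomparable elements -/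
theorem semi_inc (h : Rep r lo hi) (hs : ∀ a, hi a = lo a + 1) {w : ℕ}
    (hw : ∀ S, IsAnti r S → S.card ≤ w) (a : Fin n) : (inc r a).card + 2 ≤ 2 * w := by
  classical
  have ha1 : a ∈ cl lo hi (lo a) := mem_cl.2 ⟨le_rfl, h.le a⟩
  have ha2 : a ∈ cl lo hi (hi a) := mem_cl.2 ⟨h.le a, le_rfl⟩
  have h1 := h.cl_erase_le hw (lo a) ha1
  have h2 := h.cl_erase_le hw (hi a) ha2
  have h3 : inc r a ⊆ (cl lo hi (lo a)).erase a ∪ (cl lo hi (hi a)).erase a := by
    intro v hv
    rw [h.inc_iff] at hv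
    rw [mem_union, mem_erase, mem_erase, mem_cl, mem_cl]
    rcases le_total (lo v) (lo a) with h4 | h4
    · exact Or.inl ⟨hv.1, h4, hv.2.2⟩
    · refine Or.inr ⟨hv.1, hv.2.1, ?_⟩
      rw [hs, hs]; linarith
  have h4 := (card_le_card h3).trans (card_union_le _ _)
  omega

/-- **Kahn-Saks for semiorders, with a rate.** -/
theorem Rep.lower_semi (h : Rep r lo hi) (hs : ∀ a, hi a = lo a + 1) {w : ℕ}
    (hw : HasWidth r w) (hw2 : 2 ≤ w) :
    1 / 2 - (1 + Real.log (2 * w)) / (w - 1) ≤ balance r := by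
  obtain ⟨⟨A, hAc, hA⟩, hmax⟩ := hw
  have hG := h.good hA
  have hB : (0 : ℝ) < 1 + Real.log ((2 * w : ℕ) : ℝ) := by
    have := log_nonneg' (2 * w); linarith
  have h1 := balance_ge_one h.isPoset hG (m := w - 1) (B := 1 + Real.log ((2 * w : ℕ) : ℝ)) ?_
    (by omega) (by omega) hB ?_ ?_
  · rw [Nat.cast_sub (by omega)] at h1
    push_cast at h1
    exact h1
  · intro a _ b _
    rcases le_total (lo a) (lo b) with h1 | h1
    · left
      constructor
      · intro d hd; rw [h.lt_iff] at hd ⊢; linarith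
      · intro d hd; rw [h.lt_iff] at hd ⊢; rw [hs] at hd ⊢; linarith
    · right
      constructor
      · intro d hd; rw [h.lt_iff] at hd ⊢; linarith
      · intro d hd; rw [h.lt_iff] at hd ⊢; rw [hs] at hd ⊢; linarith
  · intro a ha σ hσ
    have h2 := XF_card_le hG ha hσ
    have h3 := semi_inc h hs hmax a
    exact (Hh_mono (by omega)).trans Hh_le_log
  · intro a ha σ hσ
    have h2 := YF_card_le hG ha hσ
    have h3 := semi_inc h hs hmax a
    exact (Hh_mono (by omega)).trans Hh_le_log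

end Pool.Agent.Helper18.Interval
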