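import Mathlib
import Pool.Agent.Helper18.Interval.Lower

/-!
Semiorders of every width all of whose pairs are unbalanced (problem MP_c890a7_co).
-/

set_option autoImplicit false

namespace Pool.Agent.Helper18.Interval

open Finset Pool.Agent.Helper1.Balance

/-- the semiorder `a < b ↔ a + w ≤ b` on `{0, ..., n - 1}` -/
def sw (w n : ℕ) : Fin n → Fin n → Prop := fun a b => a = b ∨ (a : ℕ) + w ≤ b

theorem sw_lt {w n : ℕ} (hw : 1 ≤ w) {a b : Fin n} : lt (sw w n) a b ↔ (a : ℕ) + w ≤ b := by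
  unfold lt sw
  constructor
  · rintro ⟨h | h, h'⟩
    · exact absurd h h'
    · exact h
  · intro h
    refine ⟨Or.inr h, ?_⟩
    rintro rfl
    omega

theorem sw_poset {w n : ℕ} (hw : 1 ≤ w) : IsPoset (sw w n) := by
  refine ⟨fun a => Or.inl rfl, ?_, ?_⟩
  · rintro a b c (rfl | h1) (rfl | h2)
    · exact Or.inl rfl
    · exact Or.inr h2
    · exact Or.inr h1
    · right; omega
  · rintro a b (rfl | h1) (h2 | h2)
    · rfl
    · rfl
    · exact h2.symm
    · omega

theorem sw_rep {w n : ℕ} (hw : 1 ≤ w) : ∀ a b, sw w n a b ↔ a = b ∨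
    ((a : ℕ) : ℝ) / ((w : ℝ) - 1 / 2) + 1 < ((b : ℕ) : ℝ) / ((w : ℝ) - 1 / 2) := by
  intro a b
  have hw' : (1 : ℝ) ≤ w := by exact_mod_cast hw
  have hd : (0 : ℝ) < (w : ℝ) - 1 / 2 := by linarith
  unfold sw
  have : ((a : ℕ) : ℝ) / ((w : ℝ) - 1 / 2) + 1 < ((b : ℕ) : ℝ) / ((w : ℝ) - 1 / 2) ↔
      (a : ℕ) + w ≤ (b : ℕ) := by
    rw [div_add_one hd.ne', div_lt_div_iff_of_pos_right hd]
    constructor
    · intro h
      by_contra h1
      have h2 : (b : ℕ) + 1 ≤ (a : ℕ) + w := by omega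
      have h3 : (((b : ℕ) + 1 : ℕ) : ℝ) ≤ (((a : ℕ) + w : ℕ) : ℝ) := by exact_mod_cast h2
      push_cast at h3
      linarith
    · intro h
      have h3 : (((a : ℕ) + w : ℕ) : ℝ) ≤ (((b : ℕ) : ℕ) : ℝ) := by exact_mod_cast h
      push_cast at h3
      linarith
  rw [this]

theorem sw_width {w : ℕ} (hw : 1 ≤ w) : HasWidth (sw w (2 * w - 1)) w := by
  constructor
  · refine ⟨univ.filter (fun a : Fin (2 * w - 1) => (a : ℕ) < w), ?_, ?_⟩
    · have h1 : (univ.filter (fun a : Fin (2 * w - 1) => (a : ℕ) < w)) =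
          (range w).attachFin (fun i hi => by rw [mem_range] at hi; omega) := by
        ext a
        simp [mem_attachFin]
      rw [h1, card_attachFin, card_range]
    · intro a ha b hb hne h
      simp only [mem_filter, mem_univ, true_and] at ha hb
      rcases h with h | h
      · exact hne h
      · omega
  · intro s hs
    rcases s.eq_empty_or_nonempty with rfl | hne
    · simp
    · set a := s.min' hne with ha
      have ha' : a ∈ s := s.min'_mem hne
      have h1 : ∀ b ∈ s, (b : ℕ) ∈ Ico (a : ℕ) ((a : ℕ) + w) := by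
        intro b hb
        have h2 : a ≤ b := s.min'_le b hb
        rw [mem_Ico]
        refine ⟨h2, ?_⟩
        by_contra h3
        push Not at h3
        have h4 : a ≠ b := by rintro h; rw [← h] at h3; omega
        exact hs a ha' b hb h4 (Or.inr h3)
      have h2 := card_le_card_of_injOn (s := s) (t := Ico (a : ℕ) ((a : ℕ) + w))
        (fun b => (b : ℕ)) (fun b hb => mem_coe.2 (h1 b hb))
        (fun x _ y _ h => Fin.ext h)
      rw [Nat.card_Ico] at h2
      omega

theorem id_mem {w n : ℕ} : (1 : Equiv.Perm (Fin n)) ∈ LX (sw w n) := by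
  rw [mem_LX]
  rintro a b (rfl | h)
  · exact le_rfl
  · rw [Fin.le_def, Equiv.Perm.one_apply, Equiv.Perm.one_apply]; omega

/-- in the order `sw w (2w-1)`, exchanging `a < b` is not always possible -/
theorem sw_strict {w : ℕ} (hw : 1 ≤ w) {a b : Fin (2 * w - 1)} (hab : (a : ℕ) < b)
    (hb : (b : ℕ) < a + w) :
    ∃ σ ∈ LX (sw w (2 * w - 1)), σ a < σ b ∧
      (Equiv.swap a b).trans σ ∉ LX (sw w (2 * w - 1)) := by
  have ha2 := a.2
  have hb2 := b.2
  rcases Nat.lt_or_ge (b : ℕ) w with h | h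
  · -- the element `c = a + w`
    have hc : (a : ℕ) + w < 2 * w - 1 := by omega
    have hmem : move b ⟨(a : ℕ) + w, hc⟩ (1 : Equiv.Perm (Fin (2 * w - 1))) ∈
        LX (sw w (2 * w - 1)) := by
      refine move_mem id_mem (mem_J.2 ⟨fun d hd => ?_, fun u hu => ?_⟩)
      · rw [sw_lt hw] at hd
        rw [Fin.lt_def, Equiv.Perm.one_apply]
        change (d : ℕ) < (a : ℕ) + w
        omega
      · rw [sw_lt hw] at hu
        rw [Fin.lt_def, Equiv.Perm.one_apply]
        change (a : ℕ) + w < (u : ℕ)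
        omega
    have h1 : ((move b ⟨(a : ℕ) + w, hc⟩ (1 : Equiv.Perm (Fin (2 * w - 1))) a : _) : ℕ) = a := by
      rw [move_apply]
      simp only [mvP, Equiv.coe_fn_mk, Equiv.Perm.one_apply]
      unfold mv; split_ifs <;> omega
    have h2 : ((move b ⟨(a : ℕ) + w, hc⟩ (1 : Equiv.Perm (Fin (2 * w - 1))) b : _) : ℕ) =
        (a : ℕ) + w := by
      rw [move_self]
    have h3 : ((move b ⟨(a : ℕ) + w, hc⟩ (1 : Equiv.Perm (Fin (2 * w - 1)))
        ⟨(a : ℕ) + w, hc⟩ : _) : ℕ) = (a : ℕ) + w - 1 := by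
      rw [move_apply]
      simp only [mvP, Equiv.coe_fn_mk, Equiv.Perm.one_apply]
      unfold mv; split_ifs <;> omega
    refine ⟨_, hmem, ?_, fun h' => ?_⟩
    · rw [Fin.lt_def, h1, h2]; omega
    · have h4 := mem_LX.1 h' a ⟨(a : ℕ) + w, hc⟩ (Or.inr le_rfl)
      rw [Equiv.trans_apply, Equiv.trans_apply, Equiv.swap_apply_left,
        Equiv.swap_apply_of_ne_of_ne (by rw [Ne, Fin.ext_iff]; simp; omega)
          (by rw [Ne, Fin.ext_iff]; simp; omega), Fin.le_def, h2, h3] at h4
      omega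
  · -- the element `c = b - w`
    have hc : (b : ℕ) - w < 2 * w - 1 := by omega
    have hmem : move a ⟨(b : ℕ) - w, hc⟩ (1 : Equiv.Perm (Fin (2 * w - 1))) ∈
        LX (sw w (2 * w - 1)) := by
      refine move_mem id_mem (mem_J.2 ⟨fun d hd => ?_, fun u hu => ?_⟩)
      · rw [sw_lt hw] at hd
        rw [Fin.lt_def, Equiv.Perm.one_apply]
        change (d : ℕ) < (b : ℕ) - w
        omega
      · rw [sw_lt hw] at hu
        rw [Fin.lt_def, Equiv.Perm.one_apply]
        change (b : ℕ) - w < (u : ℕ)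
        omega
    have h1 : ((move a ⟨(b : ℕ) - w, hc⟩ (1 : Equiv.Perm (Fin (2 * w - 1))) b : _) : ℕ) = b := by
      rw [move_apply]
      simp only [mvP, Equiv.coe_fn_mk, Equiv.Perm.one_apply]
      unfold mv; split_ifs <;> omega
    have h2 : ((move a ⟨(b : ℕ) - w, hc⟩ (1 : Equiv.Perm (Fin (2 * w - 1))) a : _) : ℕ) =
        (b : ℕ) - w := by
      rw [move_self]
    have h3 : ((move a ⟨(b : ℕ) - w, hc⟩ (1 : Equiv.Perm (Fin (2 * w - 1)))
        ⟨(b : ℕ) - w, hc⟩ : _) : ℕ) = (b : ℕ) - w + 1 := by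
      rw [move_apply]
      simp only [mvP, Equiv.coe_fn_mk, Equiv.Perm.one_apply]
      unfold mv; split_ifs <;> omega
    refine ⟨_, hmem, ?_, fun h' => ?_⟩
    · rw [Fin.lt_def, h1, h2]; omega
    · have h4 := mem_LX.1 h' ⟨(b : ℕ) - w, hc⟩ b (Or.inr (by simp; omega))
      rw [Equiv.trans_apply, Equiv.trans_apply, Equiv.swap_apply_right,
        Equiv.swap_apply_of_ne_of_ne (by rw [Ne, Fin.ext_iff]; simp; omega)
          (by rw [Ne, Fin.ext_iff]; simp; omega), Fin.le_def, h2, h3] at h4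
      omega

theorem sw_swap {w n : ℕ} {a b : Fin n} (hab : (a : ℕ) < b) (hb : (b : ℕ) < a + w)
    {σ : Equiv.Perm (Fin n)} (hσ : σ ∈ LX (sw w n)) (h : σ b < σ a) :
    (Equiv.swap a b).trans σ ∈ LX (sw w n) := by
  have hs := mem_LX.1 hσ
  have hw : 1 ≤ w := by omega
  rw [mem_LX]
  intro x y hxy
  rcases hxy with rfl | hxy
  · exact le_rfl
  · have hne : (x : ℕ) ≠ y := by omega
    simp only [Equiv.trans_apply]
    by_cases hxa : x = a
    · subst hxa
      have hyx : y ≠ x := by rintro rfl; omega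
      have hyb : y ≠ b := by rintro rfl; omega
      rw [Equiv.swap_apply_left, Equiv.swap_apply_of_ne_of_ne hyx hyb]
      exact h.le.trans (hs x y (Or.inr hxy))
    · by_cases hxb : x = b
      · subst hxb
        have hyx : y ≠ x := by rintro rfl; omega
        have hya : y ≠ a := by rintro rfl; omega
        rw [Equiv.swap_apply_right, Equiv.swap_apply_of_ne_of_ne hya hyx]
        exact hs a y (Or.inr (by omega))
      · rw [Equiv.swap_apply_of_ne_of_ne hxa hxb]
        by_cases hya : y = a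
        · subst hya
          rw [Equiv.swap_apply_left]
          exact hs x b (Or.inr (by omega))
        · by_cases hyb : y = b
          · subst hyb
            rw [Equiv.swap_apply_right]
            exact (hs x y (Or.inr hxy)).trans h.le
          · rw [Equiv.swap_apply_of_ne_of_ne hya hyb]
            exact hs x y (Or.inr hxy)

theorem sw_prob {w : ℕ} (hw : 1 ≤ w) {a b : Fin (2 * w - 1)} (hab : (a : ℕ) < b)
    (hb : (b : ℕ) < a + w) :
    prob (sw w (2 * w - 1)) b a < 1 / 2 := by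
  classical
  have hr : IsPoset (sw w (2 * w - 1)) := sw_poset hw
  obtain ⟨σ0, h0, h1, h2⟩ := sw_strict hw hab hb
  have hN : (0 : ℝ) < (LX (sw w (2 * w - 1))).card := by exact_mod_cast LX_pos hr
  have hlt : ((LX (sw w (2 * w - 1))).filter (fun σ => σ b < σ a)).card <
      ((LX (sw w (2 * w - 1))).filter (fun σ => σ a < σ b)).card := by
    have h3 : (((LX (sw w (2 * w - 1))).filter (fun σ => σ b < σ a)).image
        (fun σ => (Equiv.swap a b).trans σ)).card =
        ((LX (sw w (2 * w - 1))).filter (fun σ => σ b < σ a)).card := by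
      apply card_image_of_injective
      intro σ τ h
      ext x
      have := congrArg (fun f => f (Equiv.swap a b x)) h
      simp only [Equiv.trans_apply, Equiv.swap_apply_self] at this
      rw [this]
    rw [← h3]
    apply card_lt_card
    rw [ssubset_iff_of_subset]
    · refine ⟨σ0, mem_filter.2 ⟨h0, h1⟩, fun h => ?_⟩
      rw [mem_image] at h
      obtain ⟨σ, hσ, rfl⟩ := h
      apply h2
      have : (Equiv.swap a b).trans ((Equiv.swap a b).trans σ) = σ := by
        ext x; simp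
      rw [this]
      exact (mem_filter.1 hσ).1
    · intro τ hτ
      rw [mem_image] at hτ
      obtain ⟨σ, hσ, rfl⟩ := hτ
      rw [mem_filter] at hσ ⊢
      refine ⟨sw_swap hab hb hσ.1 hσ.2, ?_⟩
      simpa using hσ.2
  have h4 : prob (sw w (2 * w - 1)) b a < prob (sw w (2 * w - 1)) a b := by
    rw [prob_eq, prob_eq, div_lt_div_iff_of_pos_right hN]
    convert (Nat.cast_lt (α := ℝ)).2 hlt
  have h5 := prob_add hr (x := a) (y := b) (by rintro rfl; omega)
  linarith

theorem sw_balance {w : ℕ} (hw : 1 ≤ w) : balance (sw w (2 * w - 1)) < 1 / 2 := by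
  classical
  set r := sw w (2 * w - 1) with hrdef
  have key : ∀ x y, ¬ r x y → ¬ r y x → min (prob r x y) (prob r y x) < 1 / 2 := by
    intro x y h1 h2
    have hne : x ≠ y := fun h => h1 (Or.inl h)
    rw [hrdef] at h1 h2
    unfold sw at h1 h2
    push Not at h1 h2
    rcases lt_trichotomy (x : ℕ) (y : ℕ) with h | h | h
    · exact (min_le_right _ _).trans_lt (sw_prob hw h h1.2)
    · exact absurd (Fin.ext h) hne
    · exact (min_le_left _ _).trans_lt (sw_prob hw h h2.2)
  set P : Finset (Fin (2 * w - 1) × Fin (2 * w - 1)) :=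
    univ.filter (fun p => ¬ r p.1 p.2 ∧ ¬ r p.2 p.1) with hP
  set F : Fin (2 * w - 1) × Fin (2 * w - 1) → ℝ :=
    fun p => min (prob r p.1 p.2) (prob r p.2 p.1) with hF
  have hset : {t : ℝ | ∃ x y : Fin (2 * w - 1), ¬ r x y ∧ ¬ r y x ∧
      t = min (prob r x y) (prob r y x)} = ((P.image F : Finset ℝ) : Set ℝ) := by
    ext t
    simp only [Set.mem_setOf_eq, coe_image, Set.mem_image, mem_coe, hP, mem_filter, mem_univ,
      true_and, hF, Prod.exists]
    constructor
    · rintro ⟨x, y, h1, h2, h3⟩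
      exact ⟨x, y, ⟨h1, h2⟩, h3.symm⟩
    · rintro ⟨x, y, ⟨h1, h2⟩, h3⟩
      exact ⟨x, y, h1, h2, h3.symm⟩
  unfold balance
  rw [hset]
  rcases (P.image F).eq_empty_or_nonempty with h | h
  · rw [h, coe_empty, Real.sSup_empty]; norm_num
  · have h1 := h.csSup_mem
    rw [mem_image] at h1
    obtain ⟨p, hp, hp2⟩ := h1
    rw [← hp2]
    rw [hP, mem_filter] at hp
    exact key p.1 p.2 hp.2.1 hp.2.2

end Pool.Agent.Helper18.Interval
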